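import Pool.Agent.K2C.Stmts
import Pool.Agent.K2B.All

/-!
# ASIDE: everything about the `α_i`
-/

set_option autoImplicit false

namespace Pool.Agent.K2C

open Pool.Agent.BEK Pool.Agent.K2B

theorem aSide_proof (hMassA : Stmt_MassA) (hMassC : Stmt_MassC) (hGeoA : Stmt_GeoA)
    (hGeoB : Stmt_GeoB) (hGeoC : Stmt_GeoC) (hRealC : Stmt_RealC) : Stmt_ASide := by
  intro p a hsep
  have hp0 : (0 : ℝ) ≤ p := Nat.cast_nonneg p
  rcases hsep with ⟨hg, h⟩ | ⟨hg, him, h⟩ | ⟨hg, him, h⟩
  · refine ⟨7 / 5, 3 / 2, 11 / 5, 1 * ((p + 1 : ℕ) : ℝ), by norm_num, le_rfl,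
      fun r h1 h2 => hGeoA p a hg h r h1 h2, ?_, ?_⟩
    · exact hMassA (p + 1) a 3 1 (by norm_num) All.log3 h
    · push_cast
      linarith
  · refine ⟨19 / 20, 1, 29 / 10, 69 / 100 * ((p + 1 : ℕ) : ℝ), by norm_num, by norm_num,
      fun r h1 h2 => ?_, ?_, ?_⟩
    · exact All.sys_real hRealC a him r _ (by linarith) (by norm_num)
        (fun i j hij => by linarith [h i j hij]) (fun b hb =>
          hGeoB (p + 1) b (by omega) (fun i j hij => by rw [← hb]; exact h i j hij) r h1 h2)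
    · exact hMassA (p + 1) a 2 (69 / 100) (by norm_num) (by linarith [Real.log_two_gt_d9]) h
    · push_cast
      linarith
  · have hp5 : (5 : ℝ) ≤ p := by exact_mod_cast hg
    refine ⟨9 / 20, 1 / 2, 17 / 5, 69 / 100 * (((p + 1 : ℕ) : ℝ) - 4), by norm_num, by norm_num,
      fun r h1 h2 => ?_, ?_, ?_⟩
    · exact All.sys_real hRealC a him r _ (by linarith) (by norm_num)
        (fun i j hij => by linarith [h i j hij]) (fun b hb =>
          hGeoC (p + 1) b (by omega) (fun i j hij => by rw [← hb]; exact h i j hij) r h1 h2)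
    · exact hMassC (p + 1) a him h
    · push_cast
      linarith

end Pool.Agent.K2C
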