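import Pool.Agent.K2C.Stmts

/-!
# BSIDEC: the discs around real points with mutual distances at least `1`
-/

set_option autoImplicit false

namespace Pool.Agent.K2C

noncomputable section

namespace BSideCX

theorem right (n : ℕ) (b : Fin n → ℝ) (hb : ∀ i j, i ≠ j → 1 ≤ |b i - b j|) (l : Fin n) (k : ℕ) :
    (Finset.univ.filter fun i => b l < b i ∧ b i < b l + (k + 1)).card ≤ k := by
  have h : (Finset.univ.filter fun i => b l < b i ∧ b i < b l + (k + 1)).card ≤
      (Finset.Icc 1 k).card := by
    apply Finset.card_le_card_of_injOn (fun i => ⌊b i - b l⌋₊)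
    · intro i hi
      have hi' := (Finset.mem_filter.mp (Finset.mem_coe.mp hi)).2
      have hil : i ≠ l := by
        rintro rfl
        exact lt_irrefl _ hi'.1
      have h1 := hb i l hil
      rw [abs_of_pos (by linarith [hi'.1])] at h1
      have h2 : 1 ≤ ⌊b i - b l⌋₊ := by
        apply Nat.le_floor
        push_cast
        exact h1
      have h3 : ⌊b i - b l⌋₊ < k + 1 := by
        rw [Nat.floor_lt (by linarith)]
        push_cast
        linarith [hi'.2]
      rw [Finset.mem_coe, Finset.mem_Icc]
      exact ⟨h2, Nat.lt_succ_iff.mp h3⟩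
    · intro i hi j hj hij
      have hi' := (Finset.mem_filter.mp (Finset.mem_coe.mp hi)).2
      have hj' := (Finset.mem_filter.mp (Finset.mem_coe.mp hj)).2
      by_contra hne
      have h3 := hb i j hne
      have e1 := Nat.floor_le (show 0 ≤ b i - b l by linarith [hi'.1])
      have e2 := Nat.lt_floor_add_one (b i - b l)
      have e3 := Nat.floor_le (show 0 ≤ b j - b l by linarith [hj'.1])
      have e4 := Nat.lt_floor_add_one (b j - b l)
      have hij' : ⌊b i - b l⌋₊ = ⌊b j - b l⌋₊ := hij
      rw [hij'] at e1 e2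
      rcases le_abs.mp h3 with h4 | h4 <;> linarith
  simpa using h

theorem both (n : ℕ) (b : Fin n → ℝ) (hb : ∀ i j, i ≠ j → 1 ≤ |b i - b j|) (l : Fin n) (k : ℕ) :
    (Finset.univ.filter fun i => i ≠ l ∧ |b l - b i| < k + 1).card ≤ 2 * k := by
  have h1 := right n b hb l k
  have h2 := right n (fun i => - b i) (fun i j hij => by
    have := hb i j hij
    rw [abs_sub_comm] at this
    have e : -b i - -b j = b j - b i := by ring
    rw [e]
    exact this) l k
  have hsub : (Finset.univ.filter fun i => i ≠ l ∧ |b l - b i| < k + 1) ⊆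
      (Finset.univ.filter fun i => b l < b i ∧ b i < b l + (k + 1)) ∪
        (Finset.univ.filter fun i => - b l < - b i ∧ - b i < - b l + (k + 1)) := by
    intro i hi
    rw [Finset.mem_filter] at hi
    obtain ⟨-, hil, hlt⟩ := hi
    have h1 := hb l i (fun h => hil h.symm)
    rw [abs_lt] at hlt
    rw [Finset.mem_union, Finset.mem_filter, Finset.mem_filter]
    rcases le_or_gt (b i) (b l) with h | h
    · right
      refine ⟨Finset.mem_univ _, ?_, ?_⟩
      · rw [abs_of_nonneg (by linarith)] at h1
        linarith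
      · linarith [hlt.2]
    · left
      exact ⟨Finset.mem_univ _, h, by linarith [hlt.1]⟩
  calc _ ≤ _ := Finset.card_le_card hsub
    _ ≤ _ := Finset.card_union_le _ _
    _ ≤ 2 * k := by omega

/-- the weights -/
def wt (t : ℝ) : ℝ := if t < 2 then 19 / 20 else if t < 3 then 39 / 20 else 59 / 20

theorem wt_pos (t : ℝ) : 0 < wt t := by
  unfold wt
  split_ifs <;> norm_num

theorem wt_le (t : ℝ) (h : 1 ≤ t) : wt t ≤ t - 1 / 20 := by
  unfold wt
  split_ifs with h1 h2 <;> linarith

theorem prod_wt {ι : Type} [DecidableEq ι] (S : Finset ι) (t : ι → ℝ) :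
    ∀ (h2 : (S.filter fun i => t i < 2).card ≤ 2) (h3 : (S.filter fun i => t i < 3).card ≤ 4)
      (h5 : 5 ≤ S.card), 10 * (59 / 20 : ℝ) ^ (S.card - 5) ≤ ∏ i ∈ S, wt (t i) := by
  intro h2 h3 h5
  have e1 : ∏ i ∈ S, wt (t i) = (19 / 20 : ℝ) ^ (S.filter fun i => t i < 2).card *
      ((39 / 20 : ℝ) ^ ((S.filter fun i => ¬ t i < 2).filter fun i => t i < 3).card *
        (59 / 20 : ℝ) ^ ((S.filter fun i => ¬ t i < 2).filter fun i => ¬ t i < 3).card) := by
    rw [← Finset.prod_filter_mul_prod_filter_not S (fun i => t i < 2)]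
    congr 1
    · rw [← Finset.prod_const]
      apply Finset.prod_congr rfl
      intro i hi
      rw [Finset.mem_filter] at hi
      simp [wt, hi.2]
    · rw [← Finset.prod_filter_mul_prod_filter_not (S.filter fun i => ¬ t i < 2)
        (fun i => t i < 3)]
      congr 1
      · rw [← Finset.prod_const]
        apply Finset.prod_congr rfl
        intro i hi
        rw [Finset.mem_filter, Finset.mem_filter] at hi
        simp [wt, hi.1.2, hi.2]
      · rw [← Finset.prod_const]
        apply Finset.prod_congr rfl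
        intro i hi
        rw [Finset.mem_filter, Finset.mem_filter] at hi
        simp [wt, hi.1.2, hi.2]
  have c1 : (S.filter fun i => t i < 2).card + (S.filter fun i => ¬ t i < 2).card = S.card :=
    Finset.card_filter_add_card_filter_not _
  have c2 : ((S.filter fun i => ¬ t i < 2).filter fun i => t i < 3).card +
      ((S.filter fun i => ¬ t i < 2).filter fun i => ¬ t i < 3).card =
      (S.filter fun i => ¬ t i < 2).card := Finset.card_filter_add_card_filter_not _
  have c3 : (S.filter fun i => t i < 2).card +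
      ((S.filter fun i => ¬ t i < 2).filter fun i => t i < 3).card ≤
      (S.filter fun i => t i < 3).card := by
    rw [← Finset.card_union_of_disjoint]
    · apply Finset.card_le_card
      intro i hi
      rw [Finset.mem_union, Finset.mem_filter, Finset.mem_filter, Finset.mem_filter] at hi
      rw [Finset.mem_filter]
      rcases hi with hi | hi
      · exact ⟨hi.1, by linarith [hi.2]⟩
      · exact ⟨hi.1.1, hi.2⟩
    · rw [Finset.disjoint_left]
      intro i hi hi'
      rw [Finset.mem_filter] at hi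
      rw [Finset.mem_filter, Finset.mem_filter] at hi'
      exact hi'.1.2 hi.2
  rw [e1]
  generalize (S.filter fun i => t i < 2).card = A at *
  generalize ((S.filter fun i => ¬ t i < 2).filter fun i => t i < 3).card = B at *
  generalize ((S.filter fun i => ¬ t i < 2).filter fun i => ¬ t i < 3).card = C at *
  generalize (S.filter fun i => ¬ t i < 2).card = D at *
  generalize (S.filter fun i => t i < 3).card = E at *
  have hA : A ≤ 2 := h2
  have hAB : A + B ≤ 4 := by omega
  obtain ⟨N, hN⟩ : ∃ N, S.card = N + 5 := ⟨S.card - 5, by omega⟩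
  rw [hN] at c1 ⊢
  have hC : C = N + (5 - A - B) := by omega
  rw [hC, show N + 5 - 5 = N by omega, pow_add]
  have hpos : (0 : ℝ) < (59 / 20 : ℝ) ^ N := by positivity
  have key : (10 : ℝ) ≤ (19 / 20 : ℝ) ^ A * ((39 / 20 : ℝ) ^ B * (59 / 20 : ℝ) ^ (5 - A - B)) := by
    have hB : B ≤ 4 := by omega
    interval_cases A <;> interval_cases B <;> first | (exfalso; omega) | norm_num
  calc 10 * (59 / 20 : ℝ) ^ N ≤
      ((19 / 20 : ℝ) ^ A * ((39 / 20 : ℝ) ^ B * (59 / 20 : ℝ) ^ (5 - A - B))) *
        (59 / 20 : ℝ) ^ N := mul_le_mul_of_nonneg_right key hpos.le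
    _ = _ := by ring

theorem sum_inv {ι : Type} [DecidableEq ι] (S : Finset ι) (t : ι → ℝ)
    (h1 : ∀ i ∈ S, 1 ≤ t i) (h2 : (S.filter fun i => t i < 2).card ≤ 2) :
    ∑ i ∈ S, 1 / t i ≤ 1 + (S.card : ℝ) / 2 := by
  have e : ∀ i ∈ S, 1 / t i ≤ (if t i < 2 then (1 / 2 : ℝ) else 0) + 1 / 2 := by
    intro i hi
    have h3 := h1 i hi
    split_ifs with h
    · rw [div_le_iff₀ (by linarith)]
      linarith
    · rw [div_le_iff₀ (by linarith)]
      linarith
  refine (Finset.sum_le_sum e).trans ?_
  rw [Finset.sum_add_distrib, ← Finset.sum_filter, Finset.sum_const, Finset.sum_const, nsmul_eq_mul,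
    nsmul_eq_mul]
  have : ((S.filter fun i => t i < 2).card : ℝ) ≤ 2 := by exact_mod_cast h2
  linarith

theorem growth (N : ℕ) : 1 + ((N + 5 : ℕ) : ℝ) / 2 ≤ 10 * (59 / 20 : ℝ) ^ N / 2 := by
  induction N with
  | zero => norm_num
  | succ N ih =>
    rw [pow_succ]
    push_cast at ih ⊢
    have : (0 : ℝ) ≤ N := N.cast_nonneg
    linarith

end BSideCX

open BSideCX in
theorem bSideC_proof : Stmt_BSideC := by
  classical
  intro q b hq him hb
  have hbe : ∀ i j, ‖b i - b j‖ = |(b i).re - (b j).re| := by
    intro i j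
    have h : b i - b j = (((b i).re - (b j).re : ℝ) : ℂ) := by
      apply Complex.ext
      · simp
      · simp [him i, him j]
    rw [h, Complex.norm_real, Real.norm_eq_abs]
  have hb' : ∀ i j, i ≠ j → 1 ≤ |(b i).re - (b j).re| := fun i j hij => by
    rw [← hbe]
    exact hb i j hij
  have hset : ∀ (m : Fin (q + 1)) (k : ℕ), ((Finset.univ.erase m).filter
      fun j => ‖b m - b j‖ < k + 1).card ≤ 2 * k := by
    intro m k
    refine le_trans (Finset.card_le_card ?_) (both (q + 1) (fun i => (b i).re) hb' m k)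
    intro j hj
    rw [Finset.mem_filter, Finset.mem_erase] at hj
    rw [Finset.mem_filter]
    refine ⟨Finset.mem_univ _, hj.1.1, ?_⟩
    rw [← hbe]
    exact hj.2
  have hcard : ∀ m : Fin (q + 1), (Finset.univ.erase m).card = q := by
    intro m
    rw [Finset.card_erase_of_mem (Finset.mem_univ _), Finset.card_univ, Fintype.card_fin]
    rfl
  have h2 : ∀ m : Fin (q + 1), ((Finset.univ.erase m).filter fun j => ‖b m - b j‖ < 2).card ≤ 2 := by
    intro m
    have := hset m 1
    norm_num at this
    exact this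
  have h3 : ∀ m : Fin (q + 1), ((Finset.univ.erase m).filter fun j => ‖b m - b j‖ < 3).card ≤ 4 := by
    intro m
    have := hset m 2
    norm_num at this
    exact this
  obtain ⟨N, rfl⟩ : ∃ N, q = N + 5 := ⟨q - 5, by omega⟩
  have hprod : ∀ (m : Fin (N + 5 + 1)) (y : ℂ), ‖y - b m‖ ≤ 1 / 20 →
      10 * (59 / 20 : ℝ) ^ N ≤ ∏ j ∈ Finset.univ.erase m, ‖y - b j‖ := by
    intro m y hy
    have e := prod_wt (Finset.univ.erase m) (fun j => ‖b m - b j‖) (h2 m) (h3 m)
      (by rw [hcard m]; omega)
    rw [hcard m, show N + 5 - 5 = N by omega] at e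
    refine e.trans (Finset.prod_le_prod (fun _ _ => (wt_pos _).le) ?_)
    intro j hj
    rw [Finset.mem_erase] at hj
    have e1 := wt_le _ (hb m j (fun h => hj.1 h.symm))
    have e2 : ‖b m - b j‖ ≤ ‖y - b j‖ + ‖y - b m‖ := by
      have : b m - b j = (y - b j) - (y - b m) := by ring
      rw [this]
      exact norm_sub_le _ _
    linarith
  have hsplit : ∀ (m : Fin (N + 5 + 1)) (y : ℂ), ‖∏ j, (y - b j)‖ =
      ‖y - b m‖ * ∏ j ∈ Finset.univ.erase m, ‖y - b j‖ := by
    intro m y
    rw [norm_prod, ← Finset.mul_prod_erase _ _ (Finset.mem_univ m)]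
  have hK : (10 : ℝ) ≤ 10 * (59 / 20 : ℝ) ^ N := by
    have : (1 : ℝ) ≤ (59 / 20 : ℝ) ^ N := one_le_pow₀ (by norm_num)
    linarith
  refine ⟨by norm_num, ?_, ?_, ?_⟩
  · intro i j hij
    have := hb i j hij
    linarith
  · intro m y hy
    rw [hsplit m y, hy]
    have := hprod m y hy.le
    linarith
  · intro m
    refine ⟨10 * (59 / 20 : ℝ) ^ N, by linarith, ?_, ?_, ?_⟩
    · intro y hy
      rw [hsplit m y, mul_comm]
      exact mul_le_mul_of_nonneg_left (hprod m y hy.le) (norm_nonneg _)
    · intro j hj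
      have e1 := hb m j (fun h => hj h.symm)
      rw [div_le_iff₀ (by linarith)]
      nlinarith
    · have e := sum_inv (Finset.univ.erase m) (fun j => ‖b m - b j‖) (fun j hj => by
        rw [Finset.mem_erase] at hj
        exact hb m j (fun h => hj.1 h.symm)) (h2 m)
      rw [hcard m] at e
      exact e.trans (growth N)

end

end Pool.Agent.K2C
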