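import Pool.Agent.K2C.Stmts

set_option autoImplicit false

/-! # BSIDE -/

namespace Pool.Agent.K2C

open Pool.Agent.K2B

namespace BSide

theorem mono {n : ℕ} {a : Fin n → ℂ} {l : Fin n} {c c' : ℝ} (h : Mass a l c) (hc : c' ≤ c) :
    Mass a l c' := fun v V hV h1 h2 h3 =>
  (mul_le_mul_of_nonneg_right hc hV.le).trans (h v V hV h1 h2 h3)

end BSide

open BSide in
theorem bside_proof (hMA : Stmt_MassA) (hMC : Stmt_MassC) (hA : Stmt_BSideA) (hB : Stmt_BSideB)
    (hC : Stmt_BSideC) : Stmt_BSide := by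
  intro q b hb
  rcases hb with ⟨hq, h⟩ | ⟨hq, him, h⟩ | ⟨hq, him, h⟩
  · refine ⟨1 / 5, hA q b hq h, fun m => mono (hMA (q + 1) b 3 1 (by norm_num) ?_ h m) ?_⟩
    · rw [Real.le_log_iff_exp_le (by norm_num)]
      have := Real.exp_one_lt_d9
      linarith
    · have : (1 : ℝ) ≤ q := by exact_mod_cast hq
      push_cast
      linarith
  · refine ⟨1 / 5, hB q b hq h, fun m => mono (hMA (q + 1) b 2 (69 / 100) (by norm_num) ?_ h m) ?_⟩
    · linarith [Real.log_two_gt_d9]
    · have : (2 : ℝ) ≤ q := by exact_mod_cast hq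
      push_cast
      linarith
  · refine ⟨1 / 20, hC q b hq him h, fun m => mono (hMC (q + 1) b him h m) ?_⟩
    have : (5 : ℝ) ≤ q := by exact_mod_cast hq
    push_cast
    linarith

end Pool.Agent.K2C
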