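import Pool.Agent.K2C.Stmts

/-!
# BSIDEA: mutual distances at least `3`
-/

set_option autoImplicit false

namespace Pool.Agent.K2C

namespace BSideAux

/-- in the disc of radius `ρ` around `b_m` the product of the other factors is at least
`(D - ρ) ^ q` -/
theorem prod_far {q : ℕ} (b : Fin (q + 1) → ℂ) (D ρ : ℝ) (hD : ρ ≤ D)
    (h : ∀ i j, i ≠ j → D ≤ ‖b i - b j‖) (m : Fin (q + 1)) (y : ℂ) (hy : ‖y - b m‖ ≤ ρ) :
    (D - ρ) ^ q * ‖y - b m‖ ≤ ‖∏ j, (y - b j)‖ := by
  have hfar : ∀ j ∈ Finset.univ.erase m, D - ρ ≤ ‖y - b j‖ := by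
    intro j hj
    have h1 := h m j (Finset.ne_of_mem_erase hj).symm
    have h2 : ‖b m - b j‖ ≤ ‖y - b m‖ + ‖y - b j‖ := by
      have : b m - b j = -(y - b m) + (y - b j) := by ring
      rw [this]
      refine (norm_add_le _ _).trans ?_
      rw [norm_neg]
    linarith
  rw [norm_prod, ← Finset.mul_prod_erase _ _ (Finset.mem_univ m), mul_comm]
  refine mul_le_mul_of_nonneg_left ?_ (norm_nonneg _)
  have hcard : (Finset.univ.erase m).card = q := by
    rw [Finset.card_erase_of_mem (Finset.mem_univ m), Finset.card_univ, Fintype.card_fin]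
    omega
  calc (D - ρ) ^ q = ∏ _j ∈ Finset.univ.erase m, (D - ρ) := by
        rw [Finset.prod_const, hcard]
    _ ≤ ∏ j ∈ Finset.univ.erase m, ‖y - b j‖ :=
        Finset.prod_le_prod (fun j _ => by linarith) hfar

theorem sum_far {q : ℕ} (b : Fin (q + 1) → ℂ) (D : ℝ) (hD : 0 < D)
    (h : ∀ i j, i ≠ j → D ≤ ‖b i - b j‖) (m : Fin (q + 1)) :
    ∑ j ∈ Finset.univ.erase m, 1 / ‖b m - b j‖ ≤ q / D := by
  have hcard : (Finset.univ.erase m).card = q := by
    rw [Finset.card_erase_of_mem (Finset.mem_univ m), Finset.card_univ, Fintype.card_fin]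
    omega
  calc ∑ j ∈ Finset.univ.erase m, 1 / ‖b m - b j‖ ≤ ∑ _j ∈ Finset.univ.erase m, 1 / D := by
        refine Finset.sum_le_sum fun j hj => ?_
        exact one_div_le_one_div_of_le hD (h m j (Finset.ne_of_mem_erase hj).symm)
    _ = q / D := by
        rw [Finset.sum_const, hcard, nsmul_eq_mul]
        ring

end BSideAux

open BSideAux

theorem bSideA_proof : Stmt_BSideA := by
  intro q b hq h
  have hB : (1 : ℝ) + q * (9 / 5) ≤ (14 / 5) ^ q := by
    have := one_add_mul_le_pow (show (-2 : ℝ) ≤ 9 / 5 by norm_num) q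
    have e : (1 : ℝ) + 9 / 5 = 14 / 5 := by norm_num
    rw [e] at this
    linarith
  have hq' : (1 : ℝ) ≤ q := by exact_mod_cast hq
  have e3 : (3 : ℝ) - 1 / 5 = 14 / 5 := by norm_num
  refine ⟨by norm_num, fun i j hij => ?_, fun m y hy => ?_, fun m => ?_⟩
  · have := h i j hij
    linarith
  · have h1 := prod_far b 3 (1 / 5) (by norm_num) h m y hy.le
    rw [hy, e3] at h1
    linarith
  · refine ⟨(14 / 5) ^ q, by positivity, fun y hy => ?_, fun j hj => ?_, ?_⟩
    · have h1 := prod_far b 3 (1 / 5) (by norm_num) h m y hy.le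
      rwa [e3] at h1
    · have h1 := h m j hj.symm
      have h2 : 5 / (11 * (14 / 5 : ℝ) ^ q) ≤ 5 / (11 * (14 / 5)) := by
        apply div_le_div_of_nonneg_left (by norm_num) (by norm_num)
        linarith
      linarith
    · have h1 := sum_far b 3 (by norm_num) h m
      linarith

end Pool.Agent.K2C
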