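import Pool.Agent.K2C.Stmts

set_option autoImplicit false

/-! # BSIDEB -/

namespace Pool.Agent.K2C

namespace BSideB

theorem pow_ge (q : ℕ) (hq : 2 ≤ q) : (81 / 25 : ℝ) ≤ (9 / 5) ^ q ∧ (q : ℝ) ≤ (9 / 5) ^ q := by
  induction q, hq using Nat.le_induction with
  | base => norm_num
  | succ n hn ih =>
    have h2 : (2 : ℝ) ≤ n := by exact_mod_cast hn
    rw [pow_succ]
    push_cast
    constructor <;> linarith [ih.1, ih.2]

end BSideB

open BSideB in
theorem bsideb_proof : Stmt_BSideB := by
  intro q b hq h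
  have hfar : ∀ m y, ‖y - b m‖ ≤ 1 / 5 → ∀ j, j ≠ m → ‖b m - b j‖ - 1 / 5 ≤ ‖y - b j‖ := by
    intro m y hy j _
    have h2 : ‖b m - b j‖ ≤ ‖y - b m‖ + ‖y - b j‖ := by
      have : b m - b j = -(y - b m) + (y - b j) := by ring
      rw [this]
      refine (norm_add_le _ _).trans ?_
      rw [norm_neg]
    linarith
  set κ : Fin (q + 1) → ℝ := fun m => ∏ j ∈ Finset.univ.erase m, (‖b m - b j‖ - 1 / 5) with hκ
  have hcard : ∀ m : Fin (q + 1), (Finset.univ.erase m).card = q := by
    intro m
    rw [Finset.card_erase_of_mem (Finset.mem_univ _), Finset.card_univ, Fintype.card_fin]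
    omega
  have hκge : ∀ m, (9 / 5 : ℝ) ^ q ≤ κ m := by
    intro m
    rw [← hcard m, ← Finset.prod_const]
    refine Finset.prod_le_prod (fun _ _ => by norm_num) ?_
    intro j hj
    have := h m j (Finset.ne_of_mem_erase hj).symm
    linarith
  have hlow : ∀ m y, ‖y - b m‖ ≤ 1 / 5 → κ m * ‖y - b m‖ ≤ ‖∏ j, (y - b j)‖ := by
    intro m y hy
    rw [norm_prod, ← Finset.mul_prod_erase _ _ (Finset.mem_univ m), mul_comm]
    refine mul_le_mul_of_nonneg_left ?_ (norm_nonneg _)
    refine Finset.prod_le_prod ?_ ?_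
    · intro j hj
      have := h m j (Finset.ne_of_mem_erase hj).symm
      linarith
    · intro j hj
      exact hfar m y hy j (Finset.ne_of_mem_erase hj)
  have hp := pow_ge q hq
  refine ⟨by norm_num, fun i j hij => by linarith [h i j hij], ?_, ?_⟩
  · intro m y hy
    have h1 := hlow m y hy.le
    rw [hy] at h1
    linarith [hκge m, hp.1]
  · intro m
    have h1 := hκge m
    have hpos : 0 < κ m := by linarith [hp.1]
    refine ⟨κ m, hpos, fun y hy => hlow m y hy.le, ?_, ?_⟩
    · intro j hj
      have h2 := h m j hj.symm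
      have h3 : 5 / (11 * κ m) ≤ 2 / 12 := by
        rw [div_le_div_iff₀ (by positivity) (by norm_num)]
        linarith [hp.1]
      linarith
    · calc ∑ j ∈ Finset.univ.erase m, 1 / ‖b m - b j‖
          ≤ ∑ j ∈ Finset.univ.erase m, (1 / 2 : ℝ) := by
            refine Finset.sum_le_sum fun j hj => ?_
            exact one_div_le_one_div_of_le (by norm_num) (h m j (Finset.ne_of_mem_erase hj).symm)
        _ = q / 2 := by
            rw [Finset.sum_const, hcard, nsmul_eq_mul]
            ring
        _ ≤ κ m / 2 := by linarith [hp.2]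

end Pool.Agent.K2C
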