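import Pool.Agent.K2C.Stmts

/-!
# Module CRIT: critical values are large
-/

set_option autoImplicit false

open Polynomial

namespace Pool.Agent.K2C

open Pool.Agent.BEK Pool.Agent.K2B

noncomputable section

namespace CritX

theorem eval_prodX {n : ℕ} (a : Fin n → ℂ) (x : ℂ) :
    (prodX a).eval x = ∏ i, (x - a i) := by
  unfold prodX
  rw [eval_prod]
  simp

end CritX

open CritX in
theorem crit_proof (hO : Stmt_OpenW) : Stmt_Crit := by
  intro n hn a r W hr hW hsep hbig u hu
  by_contra hcon
  push Not at hcon
  choose z hz hzc using fun l => hO n a r W l hr hW (hbig l) ((prodX a).eval u) hcon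
  have hinj : Function.Injective z := by
    intro i j hij
    by_contra hne
    have h1 := hsep i j hne
    have h3 := hz i
    have h4 := hz j
    rw [hij] at h3
    have h5 : ‖a i - a j‖ ≤ ‖z j - a i‖ + ‖z j - a j‖ := by
      have : a i - a j = (z j - a j) - (z j - a i) := by ring
      rw [this]
      refine (norm_sub_le _ _).trans ?_
      rw [add_comm]
    linarith
  have hma : (prodX a).Monic := Irr.monic_prodX a
  have hmz : (prodX z).Monic := Irr.monic_prodX z
  have hda : (prodX a).degree = n := by
    rw [degree_eq_natDegree hma.ne_zero, Irr.natDegree_prodX]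
  have hdz : (prodX z).degree = n := by
    rw [degree_eq_natDegree hmz.ne_zero, Irr.natDegree_prodX]
  set c := (prodX a).eval u with hc
  have hdc : (C c : ℂ[X]).degree < (prodX a).degree := by
    rw [hda]
    exact lt_of_le_of_lt degree_C_le (by exact_mod_cast hn)
  have hdQ : (prodX a - C c).degree = n := by
    rw [degree_sub_eq_left_of_degree_lt hdc, hda]
  have hlQ : (prodX a - C c).leadingCoeff = 1 := by
    rw [leadingCoeff_sub_of_degree_lt hdc, hma]
  have heq : prodX a - C c = prodX z := by
    refine eq_of_degree_le_of_eval_index_eq (v := z) Finset.univ hinj.injOn ?_ ?_ ?_ ?_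
    · rw [hdQ, Finset.card_univ, Fintype.card_fin]
    · rw [hdQ, hdz]
    · rw [hlQ, hmz]
    · intro i _
      rw [eval_sub, eval_C, eval_prodX, hzc i, eval_prodX,
        Finset.prod_eq_zero (Finset.mem_univ i) (sub_self _), sub_self]
  have hsepz : (prodX z).Separable := by
    unfold prodX
    exact separable_prod_X_sub_C_iff.2 hinj
  have h0 : (prodX z).eval u = 0 := by
    rw [← heq, eval_sub, eval_C, ← hc, sub_self]
  have h1 : (derivative (prodX z)).eval u = 0 := by
    rw [← heq, derivative_sub, derivative_C, sub_zero, hu]
  obtain ⟨s, t, hst⟩ := hsepz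
  have h2 := congrArg (eval u) hst
  rw [eval_add, eval_mul, eval_mul, h0, h1, mul_zero, mul_zero, add_zero, eval_one] at h2
  exact zero_ne_one h2

end

end Pool.Agent.K2C
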