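import Pool.Agent.K2C.Irr
import Pool.Agent.K2B.Final

/-!
# `K₂` of the curves `λ ∏ (x - α_i) ∏ (y - β_j) = 1` : definitions
-/

set_option autoImplicit false

open Polynomial

namespace Pool.Agent.K2C

open Pool.Agent.BEK Pool.Agent.K2B

noncomputable section

/-- The data of a curve `λ ∏ (x - α_i) ∏ (y - β_j) = 1`: distinct `α_0, …, α_p`,
elements `β_0, …, β_q` and `λ ≠ 0`. -/
structure Crv (k : Type) [Field k] (p q : ℕ) where
  α : Fin (p + 1) → k
  β : Fin (q + 1) → k
  lam : k
  inj : Function.Injective α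
  ne : lam ≠ 0

namespace Crv

variable {k : Type} [Field k] {p q : ℕ} (c : Crv k p q)

/-- The equation `B(y) - 1/(λ A(x))` of the curve over `k(x)`. -/
def eq : (RatFunc k)[X] := eqn c.α c.β c.lam

instance : Fact (Irreducible c.eq) := ⟨eqn_irreducible c.α c.β c.lam c.inj c.ne⟩

/-- The function field `k(x)[y] / (B(y) - 1/(λ A(x)))`. -/
def F : Type := AdjoinRoot c.eq

instance : Field c.F := AdjoinRoot.instField

/-- The inclusion of `k(x)`. -/
def of : RatFunc k →+* c.F := AdjoinRoot.of c.eq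

/-- The constants. -/
def cst : k →+* c.F := c.of.comp (RatFunc.C)

/-- The function `x`. -/
def x : c.F := c.of RatFunc.X

/-- The function `y`. -/
def y : c.F := AdjoinRoot.root c.eq

/-- The element `{(x - α_i)/(x - α_0), (y - β_j)/(y - β_0)}`, `1 ≤ i ≤ p`, `1 ≤ j ≤ q`. -/
def xi (ij : Fin p × Fin q) : KQ c.F :=
  K2B.sym ((c.x - c.cst (c.α ij.1.succ)) / (c.x - c.cst (c.α 0)))
    ((c.y - c.cst (c.β ij.2.succ)) / (c.y - c.cst (c.β 0)))

/-- The loop lies on the curve over `ℂ` obtained from the embedding `σ`. -/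
def Over (γ : Loop c.F) (σ : k →+* ℂ) : Prop := ∀ (θ : ℝ) (a : k), γ.ev θ (c.cst a) = σ a

/-- The affine curve over `ℂ` obtained from `σ` has no singular point:
`A'(x) = B'(y) = 0` implies `λ A(x) B(y) ≠ 1`. -/
def Smooth (σ : k →+* ℂ) : Prop :=
  ∀ u v : ℂ, (derivative ((prodX c.α).map σ)).eval u = 0 →
    (derivative ((prodX c.β).map σ)).eval v = 0 →
    σ c.lam * ((prodX c.α).map σ).eval u * ((prodX c.β).map σ).eval v ≠ 1

end Crv

/-- The matrix of regulators. -/
def regM {F : Type} [Field F] {ι : Type} (γ : ι → Loop F) (ξ : ι → KQ F) : Matrix ι ι ℝ :=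
  fun i j => (γ i).reg (ξ j)

/-- The vectors of regulators of the unramified elements span the whole space. -/
def Spans {F : Type} [Field F] {ι : Type} (γ : ι → Loop F) : Prop :=
  Submodule.span ℝ {r : ι → ℝ | ∃ η : KQ F, Unram η ∧ ∀ i, r i = (γ i).reg η} = ⊤

end

end Pool.Agent.K2C
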