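import Pool.Agent.K2C.Stmts
import Pool.Agent.K2B.EST

/-!
# Module EST2
-/

set_option autoImplicit false

open Polynomial

namespace Pool.Agent.K2C

open Pool.Agent.BEK Pool.Agent.K2B

noncomputable section

namespace Est2X

open Pool.Agent.K2B.EstX

theorem nz_const {c : ℂ} (hc : c ≠ 0) : Nz (fun _ : ℝ => c) :=
  ⟨contDiff_const, fun _ => rfl, fun _ => hc⟩

theorem regz_prod_right (hReg : Stmt_Reg) {ι : Type} (s : Finset ι) (f : ι → ℝ → ℂ)
    (hf : ∀ i ∈ s, Nz (f i)) (g : ℝ → ℂ) (hg : Nz g) :
    regz g (fun θ => ∏ i ∈ s, f i θ) = ∑ i ∈ s, regz g (f i) := by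
  rw [hReg.2.2.1 (fun θ => ∏ i ∈ s, f i θ) g, regz_prod_left hReg s f hf g hg,
    ← Finset.sum_neg_distrib]
  exact Finset.sum_congr rfl fun i _ => (hReg.2.2.1 (f i) g).symm

theorem regz_const_right (hReg : Stmt_Reg) (c : ℂ) (g : ℝ → ℂ) :
    regz g (fun _ => c) = - (Real.log ‖c‖ * wind g) := by
  rw [hReg.2.2.1 (fun _ => c) g, hReg.2.2.2.1]

theorem deriv_circ (a c : ℂ) (r : ℝ) (θ : ℝ) :
    deriv (fun θ : ℝ => circ c r θ - a) θ = r * (Complex.exp (θ * Complex.I) * Complex.I) := by
  have h6 : HasDerivAt (fun θ : ℝ => (θ : ℂ) * Complex.I) Complex.I θ := by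
    simpa using (Complex.ofRealCLM.hasDerivAt (x := θ)).mul_const Complex.I
  have h7 : HasDerivAt (fun θ : ℝ => circ c r θ - a)
      (r * (Complex.exp (θ * Complex.I) * Complex.I)) θ := by
    unfold circ
    exact ((h6.cexp.const_mul (r : ℂ)).const_add c).sub_const a
  exact h7.deriv

theorem norm_dlog_le (a c : ℂ) (r : ℝ) (hr : 0 < r) (h : a = c ∨ 2 * r ≤ ‖c - a‖) (θ : ℝ) :
    ‖deriv (fun θ : ℝ => circ c r θ - a) θ / (circ c r θ - a)‖ ≤ 1 := by
  rw [deriv_circ, norm_div, norm_mul, norm_mul, Complex.norm_I, mul_one,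
    Complex.norm_exp_ofReal_mul_I, mul_one, Complex.norm_real, Real.norm_of_nonneg hr.le]
  have h8 : r ≤ ‖circ c r θ - a‖ := by
    rcases h with h | h
    · subst h
      have : circ a r θ - a = r * Complex.exp (θ * Complex.I) := by
        unfold circ
        ring
      rw [this, norm_mul, Complex.norm_exp_ofReal_mul_I, mul_one, Complex.norm_real,
        Real.norm_of_nonneg hr.le]
    · have h9 : c - a = (circ c r θ - a) - r * Complex.exp (θ * Complex.I) := by
        unfold circ
        ring
      have h10 : ‖c - a‖ ≤ ‖circ c r θ - a‖ + r := by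
        rw [h9]
        refine (norm_sub_le _ _).trans ?_
        rw [norm_mul, Complex.norm_exp_ofReal_mul_I, mul_one, Complex.norm_real,
          Real.norm_of_nonneg hr.le]
      linarith
  exact div_le_one_of_le₀ h8 (norm_nonneg _)

theorem delta_bound {δ : ℝ} (h0 : 0 ≤ δ) (h1 : δ ≤ 1 / 12) :
    (δ + δ ^ 2 / (1 - δ) / 2) * 1 ≤ 21 / 20 * δ := by
  have h2 : 0 < 1 - δ := by linarith
  have h3 : δ ^ 2 / (1 - δ) ≤ δ / 11 := by
    rw [div_le_div_iff₀ h2 (by norm_num)]
    nlinarith
  linarith

end Est2X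

open Est2X Pool.Agent.K2B.EstX in
theorem est2_proof (hReg : Stmt_Reg) (hWind : Stmt_Wind) (hLin : Stmt_Lin)
    (hPertB : Stmt_PertB) : Stmt_Est2 := by
  classical
  intro p q a b L r ρ τ l m Y hr hsepa hsepb hYs hYp hYρ hrel hYτ hτ v V hv
  have hτ0 : 0 ≤ τ := (norm_nonneg _).trans (hYτ 0)
  have hfar : ∀ i, i ≠ l → r < ‖a l - a i‖ := fun i hi => by
    have := hsepa l i (Ne.symm hi)
    linarith
  have hnz : ∀ i, Nz (fun θ => circ (a l) r θ - a i) := fun i => by
    by_cases hi : i = l
    · subst hi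
      exact (hWind (a i) r hr).1
    · exact ((hWind (a l) r hr).2.2 (a i) (hfar i hi)).1
  have hwind : ∀ i, wind (fun θ => circ (a l) r θ - a i) = if i = l then 1 else 0 := fun i => by
    by_cases hi : i = l
    · subst hi
      rw [if_pos rfl]
      exact (hWind (a i) r hr).2.1
    · rw [if_neg hi]
      exact ((hWind (a l) r hr).2.2 (a i) (hfar i hi)).2
  have hL : L ≠ 0 := by
    intro h0
    have := hrel 0
    rw [h0, zero_mul, zero_mul] at this
    exact zero_ne_one this
  have hnzY : ∀ j, Nz (fun θ => Y θ - b j) := fun j =>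
    ⟨hYs.sub contDiff_const, fun θ => by simp only [hYp], fun θ h0 => by
      have := hrel θ
      rw [Finset.prod_eq_zero (f := fun j => Y θ - b j) (Finset.mem_univ j) h0, mul_zero] at this
      exact zero_ne_one this⟩
  have hbne : ∀ j, j ≠ m → b m - b j ≠ 0 := by
    intro j hj h0
    have h1 := hsepb m j (Ne.symm hj)
    rw [h0, norm_zero] at h1
    have h2 := hYρ 0
    have h3 := norm_nonneg (Y 0 - b m)
    linarith
  -- the perturbation
  set e : Fin (p + 1) → Fin (q + 1) → ℝ := fun i j =>
    regz (fun θ => circ (a l) r θ - a i) (fun θ => Y θ - b j) +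
      Real.log ‖b m - b j‖ * (if i = l then 1 else 0) with he
  have hebd : ∀ i j, j ≠ m → |e i j| ≤ 21 / 20 * (τ / ‖b m - b j‖) := by
    intro i j hj
    have hb0 := hbne j hj
    have hbpos : 0 < ‖b m - b j‖ := norm_pos_iff.2 hb0
    have hδ0 : 0 ≤ τ / ‖b m - b j‖ := div_nonneg hτ0 hbpos.le
    have hδ1 : τ / ‖b m - b j‖ ≤ 1 / 12 := by
      rw [div_le_iff₀ hbpos]
      have := hτ j hj
      linarith
    have hφnorm : ∀ θ, ‖(Y θ - b j) / (b m - b j) - 1‖ ≤ τ / ‖b m - b j‖ := by
      intro θ
      have : (Y θ - b j) / (b m - b j) - 1 = (Y θ - b m) / (b m - b j) := by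
        field_simp
        ring
      rw [this, norm_div]
      exact div_le_div_of_nonneg_right (hYτ θ) hbpos.le
    have hnzφ : Nz (fun θ => (Y θ - b j) / (b m - b j)) :=
      ⟨(hnzY j).smooth.div_const _, fun θ => by simp only [hYp],
        fun θ => div_ne_zero ((hnzY j).ne θ) hb0⟩
    have h1 : regz (fun θ => circ (a l) r θ - a i) (fun θ => Y θ - b j) =
        regz (fun θ => circ (a l) r θ - a i) (fun _ => b m - b j) +
          regz (fun θ => circ (a l) r θ - a i) (fun θ => (Y θ - b j) / (b m - b j)) := by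
      have h2 := hReg.2.1 (fun θ => circ (a l) r θ - a i) (fun _ => b m - b j)
        (fun θ => (Y θ - b j) / (b m - b j)) (hnz i) (nz_const hb0) hnzφ
      rw [← h2]
      congr 1
      funext θ
      field_simp
    have h3 : e i j = - regz (fun θ => (Y θ - b j) / (b m - b j))
        (fun θ => circ (a l) r θ - a i) := by
      rw [he]
      simp only
      rw [h1, regz_const_right hReg, hwind i,
        hReg.2.2.1 (fun θ => (Y θ - b j) / (b m - b j)) (fun θ => circ (a l) r θ - a i)]
      ring
    rw [h3, abs_neg]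
    refine (hPertB _ _ (τ / ‖b m - b j‖) 1 hnzφ (hnz i) hδ0 (by linarith) hφnorm ?_).trans
      (delta_bound hδ0 hδ1)
    intro θ
    refine norm_dlog_le (a i) (a l) r hr ?_ θ
    by_cases hi : i = l
    · left; rw [hi]
    · right; exact hsepa l i (Ne.symm hi)
  -- the sum over the linear functions in `x`
  have hS : ∀ i, ∑ i', regz (fun θ => circ (a l) r θ - a i) (fun θ => circ (a l) r θ - a i') =
      Real.log ‖a l - a i‖ - (if i = l then 1 else 0) * ∑ i', Real.log ‖a l - a i'‖ := by
    intro i
    have h1 : ∀ i', regz (fun θ => circ (a l) r θ - a i) (fun θ => circ (a l) r θ - a i') =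
        Real.log ‖a i - a i'‖ * ((if i' = l then 1 else 0) - (if i = l then 1 else 0)) := by
      intro i'
      by_cases hii : i = i'
      · subst hii
        have h0 := hReg.2.2.1 (fun θ => circ (a l) r θ - a i) (fun θ => circ (a l) r θ - a i)
        have h1 : regz (fun θ => circ (a l) r θ - a i) (fun θ => circ (a l) r θ - a i) = 0 := by
          linarith
        rw [h1]
        ring
      · rw [hLin (fun θ => circ (a l) r θ) (a i) (a i') ?_ (hnz i) (hnz i'), hwind, hwind]
        intro h0
        have := hsepa i i' hii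
        rw [h0, sub_self, norm_zero] at this
        linarith
    simp only [h1, mul_sub]
    rw [Finset.sum_sub_distrib]
    congr 1
    · rw [Finset.sum_eq_single l]
      · rw [if_pos rfl, mul_one, norm_sub_rev]
      · intro i' _ hi'
        rw [if_neg hi', mul_zero]
      · intro h0
        exact absurd (Finset.mem_univ l) h0
    · rw [← Finset.sum_mul, mul_comm]
      by_cases hi : i = l
      · subst hi; rfl
      · rw [if_neg hi, zero_mul, zero_mul]
  -- the product relation
  have hprod : ∀ i, ∑ j, regz (fun θ => circ (a l) r θ - a i) (fun θ => Y θ - b j) =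
      Real.log ‖L‖ * (if i = l then 1 else 0) -
        ∑ i', regz (fun θ => circ (a l) r θ - a i) (fun θ => circ (a l) r θ - a i') := by
    intro i
    have hP1 : Nz (fun θ => ∏ i, (circ (a l) r θ - a i)) :=
      nz_prod Finset.univ (fun i θ => circ (a l) r θ - a i) fun i _ => hnz i
    have hP2 : Nz (fun θ => ∏ j, (Y θ - b j)) :=
      nz_prod Finset.univ (fun j θ => Y θ - b j) fun j _ => hnzY j
    have h1 := hReg.2.1 (fun θ => circ (a l) r θ - a i)
      (fun θ => L * ∏ i, (circ (a l) r θ - a i)) (fun θ => ∏ j, (Y θ - b j)) (hnz i)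
      (nz_mul (nz_const hL) hP1) hP2
    have h2 := hReg.2.1 (fun θ => circ (a l) r θ - a i) (fun _ => L)
      (fun θ => ∏ i, (circ (a l) r θ - a i)) (hnz i) (nz_const hL) hP1
    have h3 : (fun θ => (L * ∏ i, (circ (a l) r θ - a i)) * ∏ j, (Y θ - b j)) =
        fun _ : ℝ => (1 : ℂ) := by
      funext θ
      exact hrel θ
    rw [h3, regz_const_right hReg, norm_one, Real.log_one, zero_mul, neg_zero, h2,
      regz_const_right hReg, hwind,
      regz_prod_right hReg Finset.univ (fun i θ => circ (a l) r θ - a i) (fun i _ => hnz i) _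
        (hnz i),
      regz_prod_right hReg Finset.univ (fun j θ => Y θ - b j) (fun j _ => hnzY j) _
        (hnz i)] at h1
    linarith
  -- row sums
  have hrow : ∀ i, ∑ j, v i j * regz (fun θ => circ (a l) r θ - a i) (fun θ => Y θ - b j) =
      (if i = l then 1 else 0) * (Real.log ‖L‖ * v l m + v l m * ∑ i', Real.log ‖a l - a i'‖ +
        ∑ j, Real.log ‖b m - b j‖ * (v l m - v l j)) - v i m * Real.log ‖a l - a i‖ +
        ∑ j ∈ Finset.univ.erase m, (v i j - v i m) * e i j := by
    intro i
    have h1 : ∑ j, v i j * regz (fun θ => circ (a l) r θ - a i) (fun θ => Y θ - b j) =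
        v i m * ∑ j, regz (fun θ => circ (a l) r θ - a i) (fun θ => Y θ - b j) +
        ∑ j, (v i j - v i m) * regz (fun θ => circ (a l) r θ - a i) (fun θ => Y θ - b j) := by
      rw [Finset.mul_sum, ← Finset.sum_add_distrib]
      exact Finset.sum_congr rfl fun j _ => by ring
    have h2 : ∑ j, (v i j - v i m) * regz (fun θ => circ (a l) r θ - a i)
        (fun θ => Y θ - b j) = ∑ j ∈ Finset.univ.erase m, (v i j - v i m) * e i j +
        (if i = l then 1 else 0) * ∑ j, Real.log ‖b m - b j‖ * (v l m - v l j) := by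
      have h3 : ∑ j, (v i j - v i m) * regz (fun θ => circ (a l) r θ - a i)
          (fun θ => Y θ - b j) = ∑ j, (v i j - v i m) * e i j +
          (if i = l then 1 else 0) * ∑ j, Real.log ‖b m - b j‖ * (v l m - v l j) := by
        rw [Finset.mul_sum, ← Finset.sum_add_distrib]
        refine Finset.sum_congr rfl fun j _ => ?_
        rw [he]
        by_cases hi : i = l
        · subst hi
          simp only [if_true]
          ring
        · simp only [if_neg hi]
          ring
      rw [h3, ← Finset.sum_erase_add Finset.univ _ (Finset.mem_univ m), sub_self, zero_mul,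
        add_zero]
    rw [h1, h2, hprod i, hS i]
    by_cases hi : i = l
    · subst hi
      simp only [if_true]
      ring
    · simp only [if_neg hi]
      ring
  have htot : (∑ i, ∑ j, v i j * regz (fun θ => circ (a l) r θ - a i) (fun θ => Y θ - b j)) -
      (Real.log ‖L‖ * v l m + ∑ i, Real.log ‖a l - a i‖ * (v l m - v i m) +
        ∑ j, Real.log ‖b m - b j‖ * (v l m - v l j)) =
      ∑ i, ∑ j ∈ Finset.univ.erase m, (v i j - v i m) * e i j := by
    simp only [hrow]
    rw [Finset.sum_add_distrib, Finset.sum_sub_distrib, ← Finset.sum_mul]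
    have h1 : ∑ i : Fin (p + 1), (if i = l then (1 : ℝ) else 0) = 1 := by
      rw [Finset.sum_ite_eq' Finset.univ l (fun _ => (1 : ℝ)), if_pos (Finset.mem_univ l)]
    have h2 : ∑ i, Real.log ‖a l - a i‖ * (v l m - v i m) =
        v l m * ∑ i, Real.log ‖a l - a i‖ - ∑ i, v i m * Real.log ‖a l - a i‖ := by
      rw [Finset.mul_sum, ← Finset.sum_sub_distrib]
      exact Finset.sum_congr rfl fun i _ => by ring
    rw [h1, h2]
    ring
  rw [htot]
  have hb1 : ∀ i, |∑ j ∈ Finset.univ.erase m, (v i j - v i m) * e i j| ≤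
      2 * V * (21 / 20) * (τ * ∑ j ∈ Finset.univ.erase m, 1 / ‖b m - b j‖) := by
    intro i
    refine (Finset.abs_sum_le_sum_abs _ _).trans ?_
    rw [Finset.mul_sum, Finset.mul_sum]
    refine Finset.sum_le_sum fun j hj => ?_
    have hjm : j ≠ m := (Finset.mem_erase.1 hj).1
    rw [abs_mul]
    have h1 : |v i j - v i m| ≤ 2 * V := by
      have h2 := abs_sub (v i j) (v i m)
      have h3 := hv i j
      have h4 := hv i m
      linarith
    have h2 := hebd i j hjm
    have h3 : 0 ≤ |v i j - v i m| := abs_nonneg _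
    have h5 : 0 ≤ 2 * V := h3.trans h1
    calc |v i j - v i m| * |e i j| ≤ 2 * V * (21 / 20 * (τ / ‖b m - b j‖)) :=
          mul_le_mul h1 h2 (abs_nonneg _) h5
      _ = 2 * V * (21 / 20) * (τ * (1 / ‖b m - b j‖)) := by ring
  refine (Finset.abs_sum_le_sum_abs _ _).trans ((Finset.sum_le_sum fun i _ => hb1 i).trans ?_)
  rw [Finset.sum_const, Finset.card_univ, Fintype.card_fin, nsmul_eq_mul]
  push_cast
  exact le_of_eq (by ring)

end

end Pool.Agent.K2C
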