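import Pool.Agent.K2C.Stmts

/-!
# EVAL2: points with transcendental coordinate are generic
-/

set_option autoImplicit false

open Polynomial

namespace Pool.Agent.K2C

open Pool.Agent.BEK Pool.Agent.K2B

noncomputable section

namespace EvalTwo

variable {k : Type} [Field k] (σ : k →+* ℂ) (X : ℂ)

theorem inj_poly (hX : ∀ f : k[X], f ≠ 0 → (f.map σ).eval X ≠ 0) :
    Function.Injective (eval₂RingHom σ X) := by
  rw [injective_iff_map_eq_zero]
  intro f hf
  by_contra hne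
  apply hX f hne
  rw [eval_map]
  exact hf

/-- evaluation of rational functions at `X` -/
def evr (hX : ∀ f : k[X], f ≠ 0 → (f.map σ).eval X ≠ 0) : RatFunc k →+* ℂ :=
  IsFractionRing.lift (A := k[X]) (inj_poly σ X hX)

theorem evr_alg (hX : ∀ f : k[X], f ≠ 0 → (f.map σ).eval X ≠ 0) (f : k[X]) :
    evr σ X hX (algebraMap k[X] (RatFunc k) f) = f.eval₂ σ X := by
  unfold evr
  rw [IsFractionRing.lift_algebraMap]
  rfl

theorem evr_C (hX : ∀ f : k[X], f ≠ 0 → (f.map σ).eval X ≠ 0) (a : k) :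
    evr σ X hX (RatFunc.C a) = σ a := by
  rw [← RatFunc.algebraMap_C, evr_alg, eval₂_C]

theorem evr_X (hX : ∀ f : k[X], f ≠ 0 → (f.map σ).eval X ≠ 0) :
    evr σ X hX (RatFunc.X) = X := by
  rw [← RatFunc.algebraMap_X, evr_alg, eval₂_X]

theorem eval₂_prodX {n : ℕ} (c : Fin n → k) (Z : ℂ) :
    (prodX c).eval₂ σ Z = ∏ i, (Z - σ (c i)) := by
  unfold prodX
  rw [← coe_eval₂RingHom, map_prod]
  refine Finset.prod_congr rfl fun i _ => ?_
  rw [map_sub, coe_eval₂RingHom, eval₂_X, eval₂_C]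

theorem root_eq {p q : ℕ} (c : Crv k p q) (Y : ℂ)
    (hX : ∀ f : k[X], f ≠ 0 → (f.map σ).eval X ≠ 0)
    (h : σ c.lam * (∏ i, (X - σ (c.α i))) * (∏ j, (Y - σ (c.β j))) = 1) :
    c.eq.eval₂ (evr σ X hX) Y = 0 := by
  have hcomp : (evr σ X hX).comp (algebraMap k (RatFunc k)) = σ := by
    ext a
    rw [RingHom.comp_apply]
    exact evr_C σ X hX a
  unfold Crv.eq eqn
  rw [eval₂_sub, eval₂_C, eval₂_map, hcomp, eval₂_prodX, map_inv₀, evr_alg, eval₂_mul, eval₂_C,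
    eval₂_prodX, sub_eq_zero]
  exact eq_inv_of_mul_eq_one_right h

end EvalTwo

open EvalTwo in
theorem eval2_proof : Stmt_Eval2 := by
  intro k _ p q c σ X Y hX h
  have e1 : ∀ r : RatFunc k, (AdjoinRoot.lift (evr σ X hX) Y (root_eq σ X c Y hX h) :
      AdjoinRoot c.eq →+* ℂ) (AdjoinRoot.of c.eq r) = evr σ X hX r := fun r =>
    AdjoinRoot.lift_of _
  refine ⟨(AdjoinRoot.lift (evr σ X hX) Y (root_eq σ X c Y hX h) : AdjoinRoot c.eq →+* ℂ),
    ?_, ?_, ?_⟩
  · intro a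
    exact (e1 _).trans (evr_C σ X hX a)
  · exact (e1 _).trans (evr_X σ X hX)
  · exact AdjoinRoot.lift_root _

end

end Pool.Agent.K2C
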