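import Pool.Agent.K2C.Stmts

/-!
# FLOOP2: loops of generic points of the curve
-/

set_option autoImplicit false

open Polynomial

namespace Pool.Agent.K2C

open Pool.Agent.BEK Pool.Agent.K2B

theorem floop2_proof (hE : Stmt_Eval2) (hG : Stmt_Gen2) : Stmt_FLoop2 := by
  intro k _ p q c σ X Y hX hY pX pY hXY hT
  have hex : ∀ θ, ∃ e : c.F →+* ℂ, (∀ a, e (c.cst a) = σ a) ∧ e c.x = X θ ∧
      e c.y = Y θ := fun θ => hE k p q c σ (X θ) (Y θ) (hT θ) (hXY θ)
  choose ev hK hx hy using hex
  have hgen := (hG k p q c).2.2
  have hext : ∀ a b : c.F →+* ℂ, (∀ t, a (c.cst t) = b (c.cst t)) →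
      a c.x = b c.x → a c.y = b c.y → a = b := by
    intro a b h1 h2 h3
    have := hgen (RingHom.eqLocusField a b) h1 h2 h3
    apply RingHom.ext
    intro f
    have hf : f ∈ RingHom.eqLocusField a b := by rw [this]; trivial
    exact hf
  have hsm : ∀ f : c.F, ContDiff ℝ 1 fun θ => ev θ f := by
    let S : Subfield c.F :=
      { carrier := {f | ContDiff ℝ 1 fun θ => ev θ f}
        mul_mem' := by
          intro a b ha hb
          show ContDiff ℝ 1 fun θ => ev θ (a * b)
          simp only [map_mul]
          exact ContDiff.mul ha hb
        one_mem' := by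
          show ContDiff ℝ 1 fun θ => ev θ 1
          simp only [map_one]
          exact contDiff_const
        add_mem' := by
          intro a b ha hb
          show ContDiff ℝ 1 fun θ => ev θ (a + b)
          simp only [map_add]
          exact ContDiff.add ha hb
        zero_mem' := by
          show ContDiff ℝ 1 fun θ => ev θ 0
          simp only [map_zero]
          exact contDiff_const
        neg_mem' := by
          intro a ha
          show ContDiff ℝ 1 fun θ => ev θ (-a)
          simp only [map_neg]
          exact ContDiff.neg ha
        inv_mem' := by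
          intro a ha
          show ContDiff ℝ 1 fun θ => ev θ a⁻¹
          by_cases h0 : a = 0
          · subst h0
            simp only [inv_zero, map_zero]
            exact contDiff_const
          · simp only [map_inv₀]
            exact ContDiff.inv ha (fun θ => (map_ne_zero (ev θ)).2 h0) }
    have hS : S = ⊤ := by
      apply hgen
      · intro t
        show ContDiff ℝ 1 fun θ => ev θ (c.cst t)
        simp only [hK]
        exact contDiff_const
      · show ContDiff ℝ 1 fun θ => ev θ c.x
        simp only [hx]
        exact hX
      · show ContDiff ℝ 1 fun θ => ev θ c.y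
        simp only [hy]
        exact hY
    intro f
    have hf : f ∈ S := by rw [hS]; trivial
    exact hf
  refine ⟨⟨ev, hsm, fun θ => ?_⟩, hK, hx, hy, fun hr sX sY θ f => ?_⟩
  · apply hext
    · intro t
      rw [hK, hK]
    · rw [hx, hx, pX]
    · rw [hy, hy, pY]
  · have h := hext (ev (-θ)) ((starRingEnd ℂ).comp (ev θ)) (by
      intro t
      rw [RingHom.comp_apply, hK, hK]
      exact (Complex.conj_eq_iff_im.2 (hr t)).symm) (by rw [RingHom.comp_apply, hx, hx, sX])
      (by rw [RingHom.comp_apply, hy, hy, sY])
    show ev (-θ) f = _
    rw [h]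
    rfl

end Pool.Agent.K2C
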