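import Pool.Agent.K2C.Stmts

set_option autoImplicit false

/-! # FINI -/

namespace Pool.Agent.K2C

open Pool.Agent.BEK Pool.Agent.K2B

theorem fini_proof : Stmt_Fini := by
  intro F ι _ _ _ γ ξ h
  refine ⟨?_, ?_⟩
  · rw [Fintype.linearIndependent_iff]
    intro g hg
    have h1 : Matrix.mulVec (regM γ ξ) (fun j => (g j : ℝ)) = 0 := by
      funext i
      rw [Matrix.mulVec, dotProduct]
      have h2 := congrArg (γ i).reg hg
      rw [map_sum, map_zero] at h2
      rw [Pi.zero_apply, ← h2]
      apply Finset.sum_congr rfl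
      intro j _
      rw [map_smul, Rat.smul_def, mul_comm]
      rfl
    have h3 := Matrix.eq_zero_of_mulVec_eq_zero h h1
    intro j
    have h4 := congrFun h3 j
    simpa using h4
  · intro hξ
    unfold Spans
    rw [eq_top_iff]
    intro r _
    set M : Matrix ι ι ℝ := regM γ ξ with hM
    have hu : IsUnit M.det := isUnit_iff_ne_zero.mpr h
    have h1 : r = M.mulVec (M⁻¹.mulVec r) := by
      rw [Matrix.mulVec_mulVec, Matrix.mul_nonsing_inv _ hu, Matrix.one_mulVec]
    have h2 : r = ∑ j, (M⁻¹.mulVec r) j • fun i => M i j := by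
      conv_lhs => rw [h1]
      funext i
      rw [Matrix.mulVec, dotProduct, Finset.sum_apply]
      apply Finset.sum_congr rfl
      intro j _
      rw [Pi.smul_apply, smul_eq_mul, mul_comm]
    rw [h2]
    apply Submodule.sum_mem
    intro j _
    apply Submodule.smul_mem
    apply Submodule.subset_span
    exact ⟨ξ j, hξ j, fun i => rfl⟩

end Pool.Agent.K2C
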