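import Pool.Agent.K2C.Stmts

/-!
# GEN2: the function field is generated by the constants and `x`, `y`
-/

set_option autoImplicit false

open Polynomial

namespace Pool.Agent.K2C

open Pool.Agent.BEK Pool.Agent.K2B

theorem gen2_proof : Stmt_Gen2 := by
  intro k _ p q c
  have hinj : Function.Injective c.of := c.of.injective
  have halg : ∀ a : k, algebraMap k[X] (RatFunc k) (C a) = RatFunc.C a := fun a =>
    RatFunc.algebraMap_C a
  have hx : ∀ a : k, c.x ≠ c.cst a := by
    intro a h
    have h1 : (RatFunc.X : RatFunc k) = RatFunc.C a := hinj h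
    rw [← RatFunc.algebraMap_X, ← RatFunc.algebraMap_C] at h1
    exact X_ne_C a (RatFunc.algebraMap_injective k h1)
  refine ⟨?_, hx, ?_⟩
  · have h0 : c.eq.eval₂ c.of c.y = 0 := AdjoinRoot.eval₂_root c.eq
    have h1 : ((prodX c.β).map (algebraMap k (RatFunc k))).eval₂ c.of c.y =
        ∏ j, (c.y - c.cst (c.β j)) := by
      rw [eval₂_map]
      unfold prodX
      rw [← coe_eval₂RingHom, map_prod]
      refine Finset.prod_congr rfl fun i _ => ?_
      rw [map_sub, coe_eval₂RingHom, eval₂_X, eval₂_C]
      rfl
    have h2 : c.of (algebraMap k[X] (RatFunc k) (C c.lam * prodX c.α)) =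
        c.cst c.lam * ∏ i, (c.x - c.cst (c.α i)) := by
      rw [map_mul, map_mul, halg]
      congr 1
      unfold prodX
      rw [map_prod, map_prod]
      refine Finset.prod_congr rfl fun i _ => ?_
      rw [map_sub, map_sub, halg, RatFunc.algebraMap_X]
      rfl
    unfold Crv.eq eqn at h0
    rw [eval₂_sub, h1, eval₂_C, map_inv₀, h2, sub_eq_zero] at h0
    rw [h0]
    refine mul_inv_cancel₀ (mul_ne_zero ?_ (Finset.prod_ne_zero_iff.2 fun i _ => ?_))
    · rw [Ne, map_eq_zero]
      exact c.ne
    · exact sub_ne_zero.2 (hx _)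
  · intro S hS hX hY
    have h1 : ∀ r : k[X], c.of (algebraMap k[X] (RatFunc k) r) ∈ S := by
      intro r
      induction r using Polynomial.induction_on' with
      | add p q hp hq =>
        rw [map_add, map_add]
        exact S.add_mem hp hq
      | monomial n a =>
        rw [← C_mul_X_pow_eq_monomial, map_mul, map_mul, map_pow, map_pow, halg,
          RatFunc.algebraMap_X]
        exact S.mul_mem (hS a) (S.pow_mem hX n)
    have h2 : ∀ r : RatFunc k, c.of r ∈ S := by
      intro r
      obtain ⟨a, b, hb, rfl⟩ := IsFractionRing.div_surjective (A := k[X]) r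
      rw [map_div₀]
      exact S.div_mem (h1 a) (h1 b)
    have h3 : ∀ P : (RatFunc k)[X], (AdjoinRoot.mk c.eq P : c.F) ∈ S := by
      intro P
      induction P using Polynomial.induction_on' with
      | add p q hp hq =>
        rw [map_add]
        exact S.add_mem hp hq
      | monomial n a =>
        rw [← C_mul_X_pow_eq_monomial, map_mul, map_pow]
        exact S.mul_mem (h2 a) (S.pow_mem hY n)
    rw [eq_top_iff]
    intro f _
    obtain ⟨P, rfl⟩ := AdjoinRoot.mk_surjective (g := c.eq) f
    exact h3 P

end Pool.Agent.K2C
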