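import Pool.Agent.K2C.Stmts
import Pool.Agent.K2B.INTEG

/-!
# Squad K2C, module INTEG2: the tame symbols are trivial
-/

set_option autoImplicit false

namespace Pool.Agent.K2C

open Pool.Agent.BEK Pool.Agent.BEK.Unr Pool.Agent.K2B.Integ

namespace Integ2

variable {F : Type} [Field F] {v : DV F}

theorem Un_of_prod {ι : Type} [Fintype ι] (f : ι → F) (h : ∀ i, I v (f i))
    (hu : Un v (∏ i, f i)) (i : ι) : Un v (f i) := by
  classical
  rw [← Finset.mul_prod_erase Finset.univ f (Finset.mem_univ i)] at hu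
  exact hu.left_of_mul (h i) (I_prod _ _ fun j _ => h j)

theorem tame_left {u w : Fˣ} (hu : u ∈ v.U1) : v.tame u w = 1 := by
  rw [v.tame_eq_one]
  have h1 : ((v.tu u w : v.U) : Fˣ) = u ^ v.ord w := by
    show (-1) ^ (v.ord u * v.ord w) * u ^ v.ord w * (w ^ v.ord u)⁻¹ = _
    rw [hu.1]
    simp
  rw [h1]
  exact zpow_mem hu _

theorem tame_right {u w : Fˣ} (hw : w ∈ v.U1) : v.tame u w = 1 := by
  rw [v.tame_eq_one]
  have h1 : ((v.tu u w : v.U) : Fˣ) = (w ^ v.ord u)⁻¹ := by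
    show (-1) ^ (v.ord u * v.ord w) * u ^ v.ord w * (w ^ v.ord u)⁻¹ = _
    rw [hw.1]
    simp
  rw [h1]
  exact inv_mem (zpow_mem hw _)

theorem tame_units {u w : Fˣ} (hu : Un v (u : F)) (hw : Un v (w : F)) : v.tame u w = 1 := by
  rw [v.tame_eq_one]
  have h1 : ((v.tu u w : v.U) : Fˣ) = 1 := by
    show (-1) ^ (v.ord u * v.ord w) * u ^ v.ord w * (w ^ v.ord u)⁻¹ = _
    have e1 : v.ord u = 0 := by
      have := hu.2
      rwa [o_unit] at this
    have e2 : v.ord w = 0 := by
      have := hw.2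
      rwa [o_unit] at this
    rw [e1, e2]
    simp
  rw [h1]
  exact one_mem _

/-- near a pole the ratio is congruent to one -/
theorem mem_U1_of_neg {z a b : F} {u : Fˣ} (ha : I v a) (hb : I v b) (hz : o v (z - b) < 0)
    (hu : (u : F) = (z - a) / (z - b)) : u ∈ v.U1 := by
  apply mem_U1
  rw [hu]
  have h0 : z - b ≠ 0 := by
    intro h
    rw [h] at hz
    unfold o at hz
    simp at hz
  refine ⟨Un_one, ?_⟩
  have e : (z - a) / (z - b) - 1 = (b - a) * (z - b)⁻¹ := by
    field_simp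
    ring
  rw [e]
  refine (hb.sub ha).mul_M (Or.inr ?_)
  rw [o_inv]
  omega

end Integ2

open Integ2 in
theorem integ2_proof : Stmt_Integ2 := by
  intro k F _ _ c p q α β lam x y hα hβ hl hrel v i j u w hu hw
  have hIα : ∀ i, I v (c (α i)) := fun i => I_of_integral ((hα i).map c.toIntAlgHom)
  have hIβ : ∀ j, I v (c (β j)) := fun j => I_of_integral ((hβ j).map c.toIntAlgHom)
  have hIl : I v (c lam) := I_of_integral (hl.map c.toIntAlgHom)
  by_cases hx : o v (x - c (α 0)) < 0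
  · exact tame_left (mem_U1_of_neg (hIα i) (hIα 0) hx hu)
  by_cases hy : o v (y - c (β 0)) < 0
  · exact tame_right (mem_U1_of_neg (hIβ j) (hIβ 0) hy hw)
  have hIx : ∀ i, I v (x - c (α i)) := by
    intro i
    have e : x - c (α i) = (x - c (α 0)) + (c (α 0) - c (α i)) := by ring
    rw [e]
    exact I.add (Or.inr (not_lt.mp hx)) ((hIα 0).sub (hIα i))
  have hIy : ∀ j, I v (y - c (β j)) := by
    intro j
    have e : y - c (β j) = (y - c (β 0)) + (c (β 0) - c (β j)) := by ring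
    rw [e]
    exact I.add (Or.inr (not_lt.mp hy)) ((hIβ 0).sub (hIβ j))
  have hIP : I v (∏ i, (x - c (α i))) := I_prod _ _ fun i _ => hIx i
  have hIQ : I v (∏ j, (y - c (β j))) := I_prod _ _ fun j _ => hIy j
  have h1 : Un v (c lam * (∏ i, (x - c (α i))) * (∏ j, (y - c (β j)))) := by
    rw [hrel]
    exact Un_one
  have hUQ : Un v (∏ j, (y - c (β j))) := h1.right_of_mul (hIl.mul hIP) hIQ
  have hUP : Un v (∏ i, (x - c (α i))) :=
    (h1.left_of_mul (hIl.mul hIP) hIQ).right_of_mul hIl hIP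
  apply tame_units
  · rw [hu]
    exact (Un_of_prod _ hIx hUP i).div (Un_of_prod _ hIx hUP 0)
  · rw [hw]
    exact (Un_of_prod _ hIy hUQ j).div (Un_of_prod _ hIy hUQ 0)

end Pool.Agent.K2C
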