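import Pool.Agent.K2C.Stmts

/-!
# INV: the solution `Y` of `∏ (Y - b_j) = w` near `b_m`
-/

set_option autoImplicit false

open Polynomial

namespace Pool.Agent.K2C

open Pool.Agent.BEK Pool.Agent.K2B

namespace Inv

theorem ball_unique {q : ℕ} {b : Fin (q + 1) → ℂ} {ρ : ℝ} (h : BSys b ρ) {i j : Fin (q + 1)}
    {y : ℂ} (hi : ‖y - b i‖ < ρ) (hj : ‖y - b j‖ < ρ) : i = j := by
  by_contra hne
  have h1 := h.sep i j hne
  have h2 : ‖b i - b j‖ < 2 * ρ := by
    have e : b i - b j = (y - b j) - (y - b i) := by ring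
    rw [e]
    calc _ ≤ ‖y - b j‖ + ‖y - b i‖ := norm_sub_le _ _
      _ < _ := by linarith
  linarith

theorem roots (hO : Stmt_OpenW) {q : ℕ} {b : Fin (q + 1) → ℂ} {ρ : ℝ} (h : BSys b ρ) (w : ℂ)
    (hw : ‖w‖ ≤ 5 / 11) :
    ∃ z : Fin (q + 1) → ℂ, (∀ j, ‖z j - b j‖ < ρ) ∧ Function.Injective z ∧
      ∀ y : ℂ, ∏ j, (y - b j) = (∏ j, (y - z j)) + w := by
  have h1 : ∀ j, ∃ z : ℂ, ‖z - b j‖ < ρ ∧ ∏ i, (z - b i) = w := fun j =>
    hO (q + 1) b ρ (5 / 11) j h.pos (by norm_num) (h.big j) w hw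
  choose z hz1 hz2 using h1
  have hinj : Function.Injective z := by
    intro i j hij
    have h3 := hz1 i
    rw [hij] at h3
    exact ball_unique h h3 (hz1 j)
  refine ⟨z, hz1, hinj, ?_⟩
  have hdeg : ∀ c : Fin (q + 1) → ℂ, (∏ j, (X - C (c j)) : ℂ[X]).degree = ((q + 1 : ℕ) : WithBot ℕ) := by
    intro c
    rw [degree_prod]
    simp
  have hmon : ∀ c : Fin (q + 1) → ℂ, (∏ j, (X - C (c j)) : ℂ[X]).Monic := fun c =>
    monic_prod_of_monic _ _ (fun j _ => monic_X_sub_C _)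
  have hlt : ((∏ j, (X - C (b j)) : ℂ[X]) - C w - ∏ j, (X - C (z j))).degree < ((q + 1 : ℕ) : WithBot ℕ) := by
    have e : ((∏ j, (X - C (b j)) : ℂ[X]) - C w - ∏ j, (X - C (z j))) =
      ((∏ j, (X - C (b j)) : ℂ[X]) - ∏ j, (X - C (z j))) - C w := by ring
    rw [e]
    refine lt_of_le_of_lt (degree_sub_le _ _) (max_lt ?_ ?_)
    · rw [← hdeg b]
      exact degree_sub_lt (by rw [hdeg, hdeg]) (hmon b).ne_zero
        (by rw [(hmon b).leadingCoeff, (hmon z).leadingCoeff])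
    · refine lt_of_le_of_lt degree_C_le ?_
      exact_mod_cast Nat.succ_pos q
  have hzero : ((∏ j, (X - C (b j)) : ℂ[X]) - C w - ∏ j, (X - C (z j))) = 0 := by
    refine Polynomial.eq_zero_of_degree_lt_of_eval_index_eq_zero (s := Finset.univ) (v := z)
      (hvs := hinj.injOn) (by simpa using hlt) ?_
    intro j _
    have e1 : (∏ i, (X - C (z i)) : ℂ[X]).eval (z j) = 0 := by
      rw [eval_prod]
      exact Finset.prod_eq_zero (Finset.mem_univ j) (by simp)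
    have e2 : (∏ i, (X - C (b i)) : ℂ[X]).eval (z j) = w := by
      rw [eval_prod, ← hz2 j]
      simp
    rw [eval_sub, eval_sub, e1, e2, eval_C]
    ring
  intro y
  have := congrArg (eval y) hzero
  rw [eval_sub, eval_sub, eval_C, eval_zero, eval_prod, eval_prod] at this
  simp only [eval_sub, eval_X, eval_C] at this
  linear_combination this

theorem root_unique (hO : Stmt_OpenW) {q : ℕ} {b : Fin (q + 1) → ℂ} {ρ : ℝ} (h : BSys b ρ)
    {w : ℂ} (hw : ‖w‖ ≤ 5 / 11) {m : Fin (q + 1)} {y y' : ℂ} (hy : ‖y - b m‖ < ρ)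
    (hy' : ‖y' - b m‖ < ρ) (e : ∏ j, (y - b j) = w) (e' : ∏ j, (y' - b j) = w) : y = y' := by
  obtain ⟨z, hz1, -, hz3⟩ := roots hO h w hw
  have key : ∀ x : ℂ, ‖x - b m‖ < ρ → ∏ j, (x - b j) = w → x = z m := by
    intro x hx ex
    have h1 := hz3 x
    rw [ex] at h1
    have h2 : ∏ j, (x - z j) = 0 := by linear_combination -h1
    obtain ⟨j, -, hj⟩ := Finset.prod_eq_zero_iff.mp h2
    have hj' : x = z j := sub_eq_zero.mp hj
    have h3 := hz1 j
    rw [← hj'] at h3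
    rw [hj', ball_unique h h3 hx]
  rw [key y hy e, key y' hy' e']

theorem exists_deriv (hO : Stmt_OpenW) {q : ℕ} {b : Fin (q + 1) → ℂ} {ρ : ℝ} (h : BSys b ρ)
    {w : ℂ} (hw : ‖w‖ ≤ 5 / 11) {m : Fin (q + 1)} {y : ℂ} (hy : ‖y - b m‖ < ρ)
    (e : ∏ j, (y - b j) = w) :
    ∃ d : ℂ, d ≠ 0 ∧ HasDerivAt (fun x : ℂ => ∏ j, (x - b j)) d y := by
  obtain ⟨z, hz1, hz2, hz3⟩ := roots hO h w hw
  have hym : y = z m := by
    refine root_unique hO h hw hy (hz1 m) e ?_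
    rw [hz3 (z m), Finset.prod_eq_zero (Finset.mem_univ m) (sub_self _), zero_add]
  refine ⟨∏ j ∈ Finset.univ.erase m, (y - z j), ?_, ?_⟩
  · refine Finset.prod_ne_zero_iff.mpr ?_
    intro j hj
    rw [hym]
    exact sub_ne_zero.mpr (fun h1 => (Finset.ne_of_mem_erase hj) (hz2 h1).symm)
  · have hf : (fun x : ℂ => ∏ j, (x - b j)) =
        fun x : ℂ => (x - z m) * (∏ j ∈ Finset.univ.erase m, (x - z j)) + w := by
      funext x
      rw [hz3 x, ← Finset.mul_prod_erase _ _ (Finset.mem_univ m)]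
    rw [hf]
    have hg : DifferentiableAt ℂ (fun x : ℂ => ∏ j ∈ Finset.univ.erase m, (x - z j)) y := by
      fun_prop
    have h1 := (((hasDerivAt_id y).sub_const (z m)).mul hg.hasDerivAt).add_const w
    refine h1.congr_deriv ?_
    simp [hym]

theorem contDiff_prod' {q : ℕ} (b : Fin (q + 1) → ℂ) :
    ContDiff ℂ 1 (fun x : ℂ => ∏ j, (x - b j)) := by
  fun_prop

end Inv

open Inv in
theorem inv_proof (hO : Stmt_OpenW) : Stmt_Inv := by
  intro q b ρ h m w hw hper hbd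
  have hex : ∀ c : ℂ, ‖c‖ ≤ 5 / 11 → ∃ y : ℂ, ‖y - b m‖ < ρ ∧ ∏ j, (y - b j) = c := fun c hc =>
    hO (q + 1) b ρ (5 / 11) m h.pos (by norm_num) (h.big m) c hc
  have hex' : ∀ c : ℂ, ∃ y : ℂ, ‖c‖ ≤ 5 / 11 → (‖y - b m‖ < ρ ∧ ∏ j, (y - b j) = c) := by
    intro c
    by_cases hc : ‖c‖ ≤ 5 / 11
    · obtain ⟨y, hy⟩ := hex c hc
      exact ⟨y, fun _ => hy⟩
    · exact ⟨0, fun h => absurd h hc⟩
  choose S hS using hex'
  have hY1 : ∀ θ, ‖S (w θ) - b m‖ < ρ := fun θ => (hS (w θ) (hbd θ)).1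
  have hY2 : ∀ θ, ∏ j, (S (w θ) - b j) = w θ := fun θ => (hS (w θ) (hbd θ)).2
  refine ⟨fun θ => S (w θ), ?_, ?_, hY1, hY2, ?_⟩
  · rw [contDiff_iff_contDiffAt]
    intro θ₀
    obtain ⟨d, hd, hder⟩ := exists_deriv hO h (hbd θ₀) (hY1 θ₀) (hY2 θ₀)
    have hcd : ContDiffAt ℂ 1 (fun x : ℂ => ∏ j, (x - b j)) (S (w θ₀)) :=
      (contDiff_prod' b).contDiffAt
    have hfd := hder.hasFDerivAt_equiv hd
    set g := hcd.localInverse hfd one_ne_zero with hg
    have hg1 : ContDiffAt ℂ 1 g (w θ₀) := by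
      have := hcd.to_localInverse hfd one_ne_zero
      rwa [hY2 θ₀] at this
    have hg2 : g (w θ₀) = S (w θ₀) := by
      have := hcd.localInverse_apply_image hfd one_ne_zero
      rwa [hY2 θ₀] at this
    have hg3 : ∀ᶠ c in nhds (w θ₀), ∏ j, (g c - b j) = c := by
      have := (hcd.hasStrictFDerivAt' hfd one_ne_zero).eventually_right_inverse
      rwa [hY2 θ₀] at this
    have hg4 : ∀ᶠ c in nhds (w θ₀), ‖g c - b m‖ < ρ := by
      have hc : ContinuousAt (fun c => ‖g c - b m‖) (w θ₀) :=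
        (hg1.continuousAt.sub continuousAt_const).norm
      refine hc.eventually_lt continuousAt_const ?_
      rw [hg2]
      exact hY1 θ₀
    have hwc : ContinuousAt w θ₀ := hw.continuous.continuousAt
    have hev : (fun θ => S (w θ)) =ᶠ[nhds θ₀] fun θ => g (w θ) := by
      filter_upwards [hwc.eventually hg3, hwc.eventually hg4] with θ h3 h4
      exact root_unique hO h (hbd θ) (hY1 θ) h4 (hY2 θ) h3
    refine ContDiffAt.congr_of_eventuallyEq ?_ hev
    exact (hg1.restrict_scalars ℝ).comp θ₀ hw.contDiffAt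
  · intro θ
    simp only [hper θ]
  · intro hreal hconj θ
    have hb : ∀ j, (starRingEnd ℂ) (b j) = b j := fun j => Complex.conj_eq_iff_im.mpr (hreal j)
    refine root_unique hO h (hbd (-θ)) (hY1 (-θ)) ?_ (hY2 (-θ)) ?_
    · have e : (starRingEnd ℂ) (S (w θ)) - b m = (starRingEnd ℂ) (S (w θ) - b m) := by
        rw [map_sub, hb m]
      rw [e, RCLike.norm_conj]
      exact hY1 θ
    · have e : ∏ j, ((starRingEnd ℂ) (S (w θ)) - b j) = (starRingEnd ℂ) (∏ j, (S (w θ) - b j)) := by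
        rw [map_prod]
        refine Finset.prod_congr rfl (fun j _ => ?_)
        rw [map_sub, hb j]
      rw [e, hY2 θ, hconj θ]

end Pool.Agent.K2C
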