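import Mathlib

/-!
# Irreducibility of `B(y) - 1/(λ A(x))` over `k(x)`
-/

set_option autoImplicit false

open Polynomial

namespace Pool.Agent.K2C

noncomputable section

variable {k : Type} [Field k]

/-- The polynomial `∏ (X - c_i)`. -/
def prodX {n : ℕ} (c : Fin n → k) : k[X] := ∏ i, (X - C (c i))

/-- The polynomial `B(y) - 1/(λ A(x))` in `y` over the field `k(x)`. -/
def eqn {p q : ℕ} (α : Fin (p + 1) → k) (β : Fin (q + 1) → k) (lam : k) : (RatFunc k)[X] :=
  (prodX β).map (algebraMap k (RatFunc k)) -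
    C (algebraMap k[X] (RatFunc k) (C lam * prodX α))⁻¹

namespace Irr

/-- the reversed polynomial `z^n - λ A(x) ∏ (1 - β_j z)` over `k[x]` -/
def FR {p q : ℕ} (α : Fin (p + 1) → k) (β : Fin (q + 1) → k) (lam : k) : k[X][X] :=
  X ^ (q + 1) - C (C lam * prodX α) * ((prodX β).map C).reverse

theorem monic_prodX {n : ℕ} (c : Fin n → k) : (prodX c).Monic := monic_prod_X_sub_C _ _

theorem natDegree_prodX {n : ℕ} (c : Fin n → k) : (prodX c).natDegree = n := by
  unfold prodX
  rw [natDegree_prod_of_monic _ _ fun i _ => monic_X_sub_C _]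
  simp

theorem prodX_mem {p : ℕ} (α : Fin (p + 1) → k) :
    prodX α ∈ Ideal.span {X - C (α 0)} := by
  rw [Ideal.mem_span_singleton]
  exact Finset.dvd_prod_of_mem _ (Finset.mem_univ 0)

theorem not_mem_sq {p : ℕ} (α : Fin (p + 1) → k) (hα : Function.Injective α) (lam : k)
    (hl : lam ≠ 0) : C lam * prodX α ∉ Ideal.span {X - C (α 0)} ^ 2 := by
  rw [Ideal.span_singleton_pow, Ideal.mem_span_singleton]
  intro h
  have h1 : prodX α = (X - C (α 0)) * ∏ i : Fin p, (X - C (α i.succ)) := by
    unfold prodX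
    rw [Fin.prod_univ_succ]
  have hu : IsUnit (C lam : k[X]) := isUnit_C.2 (isUnit_iff_ne_zero.2 hl)
  rw [hu.dvd_mul_left, h1, pow_two] at h
  have h2 := (mul_dvd_mul_iff_left (X_sub_C_ne_zero (α 0))).1 h
  rw [dvd_iff_isRoot, IsRoot.def, eval_prod, Finset.prod_eq_zero_iff] at h2
  obtain ⟨i, _, hi⟩ := h2
  rw [eval_sub, eval_X, eval_C, sub_eq_zero] at hi
  exact (Fin.succ_ne_zero i) (hα hi).symm

theorem coeff_FR {p q : ℕ} (α : Fin (p + 1) → k) (β : Fin (q + 1) → k) (lam : k) (i : ℕ) :
    (FR α β lam).coeff i = (if i = q + 1 then 1 else 0) -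
      C lam * prodX α * (((prodX β).map C).reverse).coeff i := by
  unfold FR
  rw [coeff_sub, coeff_X_pow, coeff_C_mul]

theorem natDegree_rev {q : ℕ} (β : Fin (q + 1) → k) :
    (((prodX β).map (C : k →+* k[X])).reverse).natDegree ≤ q + 1 := by
  refine (reverse_natDegree_le _).trans ?_
  rw [(monic_prodX β).natDegree_map, natDegree_prodX]

theorem rev_coeff_zero {q : ℕ} (β : Fin (q + 1) → k) :
    (((prodX β).map (C : k →+* k[X])).reverse).coeff 0 = 1 := by
  rw [coeff_zero_reverse]
  exact ((monic_prodX β).map C).leadingCoeff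

theorem degree_FR {p q : ℕ} (α : Fin (p + 1) → k) (β : Fin (q + 1) → k) (lam : k) :
    (FR α β lam).coeff (q + 1) ∉ Ideal.span {X - C (α 0)} ∧
      (FR α β lam).natDegree = q + 1 := by
  have hP : (Ideal.span {X - C (α 0)} : Ideal k[X]).IsPrime :=
    (Ideal.span_singleton_prime (X_sub_C_ne_zero _)).2 (prime_X_sub_C _)
  have h1 : (FR α β lam).coeff (q + 1) ∉ (Ideal.span {X - C (α 0)} : Ideal k[X]) := by
    rw [coeff_FR, if_pos rfl]
    intro h
    have h2 : C lam * prodX α * (((prodX β).map C).reverse).coeff (q + 1) ∈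
        (Ideal.span {X - C (α 0)} : Ideal k[X]) :=
      Ideal.mul_mem_right _ _ (Ideal.mul_mem_left _ _ (prodX_mem α))
    have h3 := Ideal.add_mem _ h h2
    rw [sub_add_cancel] at h3
    exact hP.ne_top ((Ideal.eq_top_iff_one _).2 h3)
  refine ⟨h1, ?_⟩
  apply le_antisymm
  · unfold FR
    refine (natDegree_sub_le _ _).trans (max_le (natDegree_X_pow_le _) ?_)
    refine (natDegree_C_mul_le _ _).trans (natDegree_rev β)
  · apply le_natDegree_of_ne_zero
    intro h
    rw [h] at h1
    exact h1 (Ideal.zero_mem _)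

theorem irr_FR {p q : ℕ} (α : Fin (p + 1) → k) (β : Fin (q + 1) → k) (lam : k)
    (hα : Function.Injective α) (hl : lam ≠ 0) :
    Irreducible (FR α β lam) ∧ (FR α β lam).IsPrimitive := by
  have hP : (Ideal.span {X - C (α 0)} : Ideal k[X]).IsPrime :=
    (Ideal.span_singleton_prime (X_sub_C_ne_zero _)).2 (prime_X_sub_C _)
  obtain ⟨h1, h2⟩ := degree_FR α β lam
  have hprim : (FR α β lam).IsPrimitive := by
    intro r hr
    rw [C_dvd_iff_dvd_coeff] at hr
    have e0 := hr 0
    have e1 := hr (q + 1)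
    rw [coeff_FR, if_neg (by omega), rev_coeff_zero, mul_one, zero_sub, dvd_neg] at e0
    rw [coeff_FR, if_pos rfl] at e1
    have e2 := dvd_add e1 (e0.mul_right (((prodX β).map C).reverse.coeff (q + 1)))
    rw [sub_add_cancel] at e2
    exact isUnit_of_dvd_one e2
  refine ⟨irreducible_of_eisenstein_criterion hP ?_ ?_ ?_ ?_ hprim, hprim⟩
  · rw [leadingCoeff, h2]; exact h1
  · intro i hi
    have hi' : i < q + 1 := by
      rw [← h2]
      exact (coe_lt_degree.1 hi)
    rw [coeff_FR, if_neg (by omega), zero_sub]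
    exact neg_mem (Ideal.mul_mem_right _ _ (Ideal.mul_mem_left _ _ (prodX_mem α)))
  · rw [← natDegree_pos_iff_degree_pos, h2]; omega
  · rw [coeff_FR, if_neg (by omega), rev_coeff_zero, mul_one, zero_sub]
    intro h
    exact not_mem_sq α hα lam hl (by simpa using neg_mem h)

theorem irr_of_reverse {K : Type} [Field K] (f : K[X]) (hf : 0 < f.natDegree)
    (h0 : f.coeff 0 ≠ 0) (h : Irreducible f.reverse) : Irreducible f := by
  have key : ∀ g : K[X], g.coeff 0 ≠ 0 → IsUnit g.reverse → IsUnit g := by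
    intro g hg hu
    have h1 := natDegree_eq_zero_of_isUnit hu
    have h2 : g.natTrailingDegree = 0 := natTrailingDegree_eq_zero_of_constantCoeff_ne_zero hg
    rw [reverse_natDegree, h2, Nat.sub_zero] at h1
    rw [eq_C_of_natDegree_eq_zero h1]
    exact isUnit_C.2 (isUnit_iff_ne_zero.2 hg)
  refine ⟨fun hu => ?_, fun {a b} hab => ?_⟩
  · have := natDegree_eq_zero_of_isUnit hu
    omega
  · have h1 : a.coeff 0 ≠ 0 ∧ b.coeff 0 ≠ 0 := by
      rw [hab, mul_coeff_zero] at h0
      exact mul_ne_zero_iff.1 h0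
    rw [hab, reverse_mul_of_domain] at h
    rcases h.isUnit_or_isUnit rfl with h2 | h2
    · exact Or.inl (key a h1.1 h2)
    · exact Or.inr (key b h1.2 h2)

end Irr

open Irr in
theorem eqn_irreducible {p q : ℕ} (α : Fin (p + 1) → k) (β : Fin (q + 1) → k) (lam : k)
    (hα : Function.Injective α) (hl : lam ≠ 0) : Irreducible (eqn α β lam) := by
  classical
  obtain ⟨h1, h2⟩ := irr_FR α β lam hα hl
  let _ : NormalizedGCDMonoid k[X] := Classical.choice inferInstance
  have h3 : Irreducible ((FR α β lam).map (algebraMap k[X] (RatFunc k))) :=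
    (h2.irreducible_iff_irreducible_map_fraction_map).1 h1
  set A : k[X] := C lam * prodX α with hA
  have hA0 : A ≠ 0 := mul_ne_zero (C_ne_zero.2 hl) (monic_prodX α).ne_zero
  set a : RatFunc k := algebraMap k[X] (RatFunc k) A with ha
  have ha0 : a ≠ 0 := (map_ne_zero_iff _ (RatFunc.algebraMap_injective k)).2 hA0
  set B : (RatFunc k)[X] := (prodX β).map (algebraMap k (RatFunc k)) with hB
  have hBm : B.Monic := (monic_prodX β).map _
  have hBd : B.natDegree = q + 1 := by rw [hB, (monic_prodX β).natDegree_map, natDegree_prodX]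
  have hf : eqn α β lam = B - C a⁻¹ := rfl
  have hfd : (eqn α β lam).natDegree = q + 1 := by
    rw [hf, natDegree_sub_C, hBd]
  have hrev : (eqn α β lam).reverse = B.reverse - C a⁻¹ * X ^ (q + 1) := by
    rw [reverse, hfd, hf, reflect_sub, reflect_C, reverse, hBd]
  have hFR : (FR α β lam).map (algebraMap k[X] (RatFunc k)) =
      C (-a) * (eqn α β lam).reverse := by
    have e1 : (((prodX β).map (C : k →+* k[X])).reverse).map (algebraMap k[X] (RatFunc k)) =
        B.reverse := by
      rw [reverse, reverse, (monic_prodX β).natDegree_map, hBd, natDegree_prodX, ← reflect_map,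
        map_map]
      rfl
    unfold FR
    rw [Polynomial.map_sub, Polynomial.map_pow, map_X, Polynomial.map_mul, map_C, e1, ← hA, ← ha,
      hrev, mul_sub, ← mul_assoc, ← C_mul, neg_mul, mul_inv_cancel₀ ha0]
    simp only [C_neg, C_1]
    ring
  have h4 : Irreducible (eqn α β lam).reverse := by
    rw [hFR] at h3
    have hu : IsUnit (C (-a) : (RatFunc k)[X]) := isUnit_C.2 (isUnit_iff_ne_zero.2 (neg_ne_zero.2 ha0))
    exact (irreducible_isUnit_mul hu).1 h3
  have h5 : ((eqn α β lam).reverse).natDegree = q + 1 := by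
    have e := congrArg natDegree hFR
    rw [natDegree_map_eq_of_injective (RatFunc.algebraMap_injective k), (degree_FR α β lam).2,
      natDegree_C_mul (neg_ne_zero.2 ha0)] at e
    exact e.symm
  refine irr_of_reverse _ (by rw [hfd]; omega) ?_ h4
  intro h0
  have h6 := natDegree_eq_reverse_natDegree_add_natTrailingDegree (eqn α β lam)
  rw [hfd, h5] at h6
  have h7 : (eqn α β lam).natTrailingDegree = 0 := by omega
  rw [natTrailingDegree_eq_zero] at h7
  rcases h7 with h7 | h7
  · rw [h7] at hfd; simp at hfd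
  · exact h7 h0

end

end Pool.Agent.K2C
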