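import Pool.Agent.K2C.Stmts

set_option autoImplicit false

/-! # KER -/

namespace Pool.Agent.K2C

theorem ker_proof : Stmt_Ker := by
  intro p q w
  refine ⟨fun i j => Fin.cases (Fin.cases (∑ i, ∑ j, w (i, j)) (fun j => -∑ i, w (i, j)) j)
    (fun i => Fin.cases (-∑ j, w (i, j)) (fun j => w (i, j)) j) i, ?_, ?_, ?_, ?_⟩
  · intro j
    rw [Fin.sum_univ_succ]
    refine Fin.cases ?_ (fun j => ?_) j
    · simp
    · simp
  · intro i
    rw [Fin.sum_univ_succ]
    refine Fin.cases ?_ (fun i => ?_) i
    · simp only [Fin.cases_zero, Fin.cases_succ, Finset.sum_neg_distrib]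
      rw [Finset.sum_comm, add_neg_cancel]
    · simp
  · intro ij; simp
  · intro R
    rw [Fin.sum_univ_succ]
    simp only [Fin.sum_univ_succ (n := q), Fin.cases_zero, Fin.cases_succ]
    rw [Fintype.sum_prod_type]
    simp only [Finset.sum_mul, Finset.sum_add_distrib, sub_mul, add_mul, Finset.sum_sub_distrib,
      neg_mul, Finset.sum_neg_distrib, Finset.sum_mul]
    rw [Finset.sum_comm (f := fun x x_1 => w (x_1, x) * R 0 x.succ)]
    simp only [mul_comm]
    ring

end Pool.Agent.K2C
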