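import Pool.Agent.K2C.Stmts

set_option autoImplicit false

namespace Pool.Agent.K2C

open Pool.Agent.BEK Pool.Agent.K2B

theorem massA_proof : Stmt_MassA := by
  intro n a D κ hD hκ hsep l v V hV hv hl hsum
  have h1 : ∑ i, κ * (V - v i) = κ * n * V := by
    rw [← Finset.mul_sum, Finset.sum_sub_distrib, hsum]
    simp [Finset.sum_const, Finset.card_univ, Fintype.card_fin]
    ring
  rw [← h1]
  apply Finset.sum_le_sum
  intro i _
  by_cases hi : i = l
  · subst hi; simp [hl]
  · have h2 : κ ≤ Real.log ‖a l - a i‖ :=
      hκ.trans (Real.log_le_log hD (hsep l i (Ne.symm hi)))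
    have h3 : 0 ≤ V - v i := by
      have := hv i
      have := le_abs_self (v i)
      linarith
    exact mul_le_mul_of_nonneg_right h2 h3

end Pool.Agent.K2C
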