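import Pool.Agent.K2C.Stmts
import Pool.Agent.K2B.NEAR

set_option autoImplicit false

namespace Pool.Agent.K2C

open Pool.Agent.BEK Pool.Agent.K2B

theorem massC_proof : Stmt_MassC := by
  intro n a him hsep l v V hV hv hl hsum
  classical
  have hnorm : ∀ i j, ‖a i - a j‖ = |(a i).re - (a j).re| := by
    intro i j
    have : a i - a j = (((a i).re - (a j).re : ℝ) : ℂ) := by
      apply Complex.ext <;> simp [him]
    rw [this, Complex.norm_real, Real.norm_eq_abs]
  have hnear := near_proof n (fun i => (a i).re) (fun i j hij => by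
    have := hsep i j hij
    rwa [hnorm] at this) l
  set N : Finset (Fin n) :=
    Finset.univ.filter fun i => i ≠ l ∧ |(a l).re - (a i).re| < 2 with hN
  have hVv : ∀ i, 0 ≤ V - v i := fun i => by
    have := hv i
    have := le_abs_self (v i)
    linarith
  have hVv2 : ∀ i, V - v i ≤ 2 * V := fun i => by
    have := hv i
    have := neg_abs_le (v i)
    linarith
  have htot : ∑ i, (V - v i) = n * V := by
    rw [Finset.sum_sub_distrib, hsum]
    simp [Finset.sum_const, Finset.card_univ, Fintype.card_fin]
  -- termwise bound
  have hterm : ∀ i, 69 / 100 * (V - v i) - (if i ∈ N then 69 / 100 * (2 * V) else 0) ≤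
      Real.log ‖a l - a i‖ * (V - v i) := by
    intro i
    by_cases hi : i = l
    · subst hi
      have : i ∉ N := by simp [hN]
      simp [this, hl]
    · by_cases hiN : i ∈ N
      · rw [if_pos hiN]
        have h1 : 0 ≤ Real.log ‖a l - a i‖ := Real.log_nonneg (hsep l i (Ne.symm hi))
        have h2 := mul_nonneg h1 (hVv i)
        have h3 := hVv2 i
        linarith
      · rw [if_neg hiN]
        have h2 : 2 ≤ ‖a l - a i‖ := by
          rw [hnorm]
          by_contra hlt
          exact hiN (by simp only [hN, Finset.mem_filter, Finset.mem_univ, true_and]; exact ⟨hi, not_le.mp hlt⟩)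
        have h3 : 69 / 100 ≤ Real.log ‖a l - a i‖ := by
          have := Real.log_le_log (by norm_num) h2
          have h4 := Real.log_two_gt_d9
          linarith
        have := mul_le_mul_of_nonneg_right h3 (hVv i)
        linarith
  have hs := Finset.sum_le_sum (fun i (_ : i ∈ Finset.univ) => hterm i)
  rw [Finset.sum_sub_distrib, ← Finset.mul_sum, htot, Finset.sum_ite_mem, Finset.univ_inter,
    Finset.sum_const, nsmul_eq_mul] at hs
  have hc : (N.card : ℝ) ≤ 2 := by exact_mod_cast hnear
  have : (N.card : ℝ) * (69 / 100 * (2 * V)) ≤ 2 * (69 / 100 * (2 * V)) :=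
    mul_le_mul_of_nonneg_right hc (by positivity)
  refine le_trans ?_ hs
  nlinarith

end Pool.Agent.K2C
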