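import Pool.Agent.K2C.Stmts

/-!
# MAX2: a maximum principle
-/

set_option autoImplicit false

namespace Pool.Agent.K2C

open Pool.Agent.BEK Pool.Agent.K2B

namespace Max2

theorem key {p q : ℕ} {a : Fin (p + 1) → ℂ} {b : Fin (q + 1) → ℂ} {Lg E ca cb : ℝ}
    {R : Fin (p + 1) → Fin (q + 1) → Fin (p + 1) → Fin (q + 1) → ℝ} (hL : 0 ≤ Lg)
    (ha : ∀ l, Mass a l ca) (hb : ∀ m, Mass b m cb) (hE : E < ca + cb)
    (hR : ∀ l m (v : Fin (p + 1) → Fin (q + 1) → ℝ) (V : ℝ), (∀ i j, |v i j| ≤ V) →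
      |(∑ i, ∑ j, v i j * R l m i j) -
        (Lg * v l m + ∑ i, Real.log ‖a l - a i‖ * (v l m - v i m) +
          ∑ j, Real.log ‖b m - b j‖ * (v l m - v l j))| ≤ E * V)
    (u : Fin (p + 1) → Fin (q + 1) → ℝ) (l : Fin (p + 1)) (m : Fin (q + 1)) (V : ℝ)
    (hV : 0 < V) (hu : ∀ i j, |u i j| ≤ V) (hlm : u l m = V) (hc : ∀ j, ∑ i, u i j = 0)
    (hr : ∀ i, ∑ j, u i j = 0) (h0 : ∑ i, ∑ j, u i j * R l m i j = 0) : False := by
  have h1 := ha l (fun i => u i m) V hV (fun i => hu i m) hlm (hc m)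
  have h2 := hb m (fun j => u l j) V hV (fun j => hu l j) hlm (hr l)
  have h3 := hR l m u V hu
  rw [h0, hlm] at h3
  have h4 := (abs_le.mp h3).1
  have h5 : 0 ≤ Lg * V := mul_nonneg hL hV.le
  have h6 : E * V < (ca + cb) * V := mul_lt_mul_of_pos_right hE hV
  nlinarith

end Max2

theorem max2_proof : Stmt_Max2 := by
  intro p q a b Lg E ca cb R hL ha hb hE hR v hc hr hv i0 j0
  by_contra h0
  obtain ⟨⟨l, m⟩, -, hmax⟩ := Finset.exists_max_image
    (Finset.univ : Finset (Fin (p + 1) × Fin (q + 1))) (fun ij => |v ij.1 ij.2|)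
    ⟨(i0, j0), Finset.mem_univ _⟩
  have hV : 0 < |v l m| := lt_of_lt_of_le (abs_pos.mpr h0) (hmax (i0, j0) (Finset.mem_univ _))
  have hall : ∀ i j, |v i j| ≤ |v l m| := fun i j => hmax (i, j) (Finset.mem_univ _)
  rcases le_total 0 (v l m) with h | h
  · exact Max2.key hL ha hb hE hR v l m |v l m| hV hall (abs_of_nonneg h).symm hc hr (hv l m)
  · refine Max2.key hL ha hb hE hR (fun i j => - v i j) l m |v l m| hV ?_ ?_ ?_ ?_ ?_
    · intro i j
      rw [abs_neg]
      exact hall i j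
    · exact (abs_of_nonpos h).symm
    · intro j
      rw [Finset.sum_neg_distrib, hc j, neg_zero]
    · intro i
      rw [Finset.sum_neg_distrib, hr i, neg_zero]
    · have : ∑ i, ∑ j, -v i j * R l m i j = - ∑ i, ∑ j, v i j * R l m i j := by
        rw [← Finset.sum_neg_distrib]
        refine Finset.sum_congr rfl fun i _ => ?_
        rw [← Finset.sum_neg_distrib]
        exact Finset.sum_congr rfl fun j _ => by ring
      rw [this, hv l m, neg_zero]

end Pool.Agent.K2C
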