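import Pool.Agent.K2C.Stmts

/-!
# OPENW: every value `c` with `‖c‖ ≤ W` is taken
-/

set_option autoImplicit false

namespace Pool.Agent.K2C

open Pool.Agent.BEK Pool.Agent.K2B

namespace OpenW

theorem value {n : ℕ} (a : Fin n → ℂ) (r : ℝ) (hr : 0 < r) (l : Fin n)
    (W : ℝ) (hW : 0 ≤ W)
    (h2 : ∀ x, ‖x - a l‖ = r → W < ‖∏ i, (x - a i)‖) (c : ℂ) (hc : ‖c‖ ≤ W) :
    ∃ z, ‖z - a l‖ < r ∧ ∏ i, (z - a i) = c := by
  set g : ℂ → ℂ := fun z => ∏ i, (z - a i) with hg
  have hdiff : Differentiable ℂ g := by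
    rw [hg]
    have h : (fun z : ℂ => ∏ i, (z - a i)) = ∏ i, fun z => z - a i := by
      ext z; simp
    rw [h]
    exact Differentiable.finsetProd (fun i _ => differentiable_id.sub_const _)
  have han : AnalyticOnNhd ℂ g Set.univ := fun z _ => hdiff.analyticAt z
  have hcont : Continuous g := hdiff.continuous
  have hgl : g (a l) = 0 := by
    rw [hg]
    exact Finset.prod_eq_zero (Finset.mem_univ l) (sub_self _)
  have hsph : ∀ x, ‖x - a l‖ = r → W < ‖g x‖ := h2
  have hopen : IsOpen (g '' Metric.ball (a l) r) := by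
    rcases han.is_constant_or_isOpen isPreconnected_univ with ⟨w, hw⟩ | h
    · exfalso
      have h1 := hw (a l) (Set.mem_univ _)
      have h3 := hw (a l + r) (Set.mem_univ _)
      have h4 := hsph (a l + r) (by simp [abs_of_pos hr])
      rw [h3, ← h1, hgl, norm_zero] at h4
      linarith
    · exact h _ (Set.subset_univ _) Metric.isOpen_ball
  have hclosed : IsOpen (g '' Metric.closedBall (a l) r)ᶜ :=
    ((isCompact_closedBall (a l) r).image hcont).isClosed.isOpen_compl
  have hconn : IsPreconnected (Metric.closedBall (0 : ℂ) W) :=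
    (convex_closedBall (0 : ℂ) W).isPreconnected
  have hcover : Metric.closedBall (0 : ℂ) W ⊆
      (g '' Metric.ball (a l) r) ∪ (g '' Metric.closedBall (a l) r)ᶜ := by
    intro w hw
    by_cases h : w ∈ g '' Metric.closedBall (a l) r
    · left
      obtain ⟨x, hx, rfl⟩ := h
      refine ⟨x, ?_, rfl⟩
      rw [mem_closedBall_iff_norm] at hx
      rw [mem_ball_iff_norm]
      rcases hx.lt_or_eq with h | h
      · exact h
      · exfalso
        have h3 := hsph x h
        rw [mem_closedBall_zero_iff] at hw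
        linarith
    · right; exact h
  by_contra hcon
  push Not at hcon
  have hcV : c ∈ (g '' Metric.closedBall (a l) r)ᶜ := by
    have hc' : c ∈ Metric.closedBall (0 : ℂ) W := mem_closedBall_zero_iff.2 hc
    rcases hcover hc' with h | h
    · obtain ⟨x, hx, hxc⟩ := h
      exact absurd hxc (hcon x (mem_ball_iff_norm.1 hx))
    · exact h
  obtain ⟨w, -, hw1, hw2⟩ := hconn _ _ hopen hclosed hcover
    ⟨0, by simp [hW], a l, Metric.mem_ball_self hr, hgl⟩
    ⟨c, mem_closedBall_zero_iff.2 hc, hcV⟩
  exact hw2 (Set.image_mono Metric.ball_subset_closedBall hw1)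

end OpenW

theorem openw_proof : Stmt_OpenW := by
  intro n a r W l hr hW h c hc
  exact OpenW.value a r hr l W hW h c hc

end Pool.Agent.K2C
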