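import Pool.Agent.K2C.Stmts
import Pool.Agent.K2B.Reg

/-!
# QUO: regulators of quotients
-/

set_option autoImplicit false

namespace Pool.Agent.K2C

open Pool.Agent.BEK Pool.Agent.K2B

namespace Quo

theorem nz_div {f g : ℝ → ℂ} (hf : Nz f) (hg : Nz g) : Nz (fun θ => f θ / g θ) where
  smooth := by
    have h := hf.smooth.mul (hg.smooth.inv hg.ne)
    have e : (fun θ => f θ / g θ) = f * g⁻¹ := by
      funext θ
      exact div_eq_mul_inv _ _
    rw [e]
    exact h
  periodic := by
    intro θ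
    show f (θ + 2 * Real.pi) / g (θ + 2 * Real.pi) = f θ / g θ
    rw [hf.periodic, hg.periodic]
  ne := fun θ => div_ne_zero (hf.ne θ) (hg.ne θ)

theorem left {f f' g : ℝ → ℂ} (hf : Nz f) (hf' : Nz f') (hg : Nz g) :
    regz (fun θ => f θ / f' θ) g = regz f g - regz f' g := by
  have h := RegX.mul_left (nz_div hf hf') hf' hg
  have e : (fun θ => f θ / f' θ * f' θ) = f := by
    funext θ
    exact div_mul_cancel₀ _ (hf'.ne θ)
  rw [e] at h
  linarith

theorem right {f g g' : ℝ → ℂ} (hf : Nz f) (hg : Nz g) (hg' : Nz g') :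
    regz f (fun θ => g θ / g' θ) = regz f g - regz f g' := by
  rw [RegX.symm (fun θ => g θ / g' θ) f, left hg hg' hf, RegX.symm g f, RegX.symm g' f]
  ring

end Quo

theorem quo_proof : Stmt_Quo := by
  intro f f' g g' hf hf' hg hg'
  rw [Quo.left hf hf' (Quo.nz_div hg hg'), Quo.right hf hg hg', Quo.right hf' hg hg']
  ring

end Pool.Agent.K2C
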