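import Pool.Agent.K2C.Stmts
import Pool.Agent.K2B.ROWS

set_option autoImplicit false

/-! # ROWS2 -/

namespace Pool.Agent.K2C

open Pool.Agent.K2B

theorem rows2_proof : Stmt_Rows2 := by
  intro ι κ _ _ _ _ N h
  set e := Fintype.equivFin ι
  set f := Fintype.equivFin κ
  obtain ⟨s, hs⟩ := rows_proof (Fintype.card ι) (Fintype.card κ)
    (fun l j => N (e.symm l) (f.symm j)) (by
      intro v hv
      have h1 := h (fun j => v (f j)) (by
        intro l
        have h2 := hv (e l)
        rw [← h2, ← Equiv.sum_comp f]
        refine Finset.sum_congr rfl fun j _ => ?_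
        simp)
      funext j
      have := congrFun h1 (f.symm j)
      simpa using this)
  refine ⟨fun j => e.symm (s (f j)), ?_⟩
  have : (Matrix.of fun l j : κ => N (e.symm (s (f l))) j) =
      (Matrix.of fun l j => N (e.symm (s l)) (f.symm j)).submatrix f f := by
    funext l j
    simp
  rw [this, Matrix.det_submatrix_equiv_self]
  exact hs

end Pool.Agent.K2C
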