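import Pool.Agent.K2C.All
import Pool.Agent.K2C.INTEG2
import Pool.Agent.K2C.EVAL2
import Pool.Agent.K2C.GEN2
import Pool.Agent.K2C.FLOOP2
import Pool.Agent.K2C.OPENW
import Pool.Agent.K2C.CRIT
import Pool.Agent.K2C.BSideA
import Pool.Agent.K2C.BSideB
import Pool.Agent.K2C.BSIDEC
import Pool.Agent.K2C.MASSA
import Pool.Agent.K2C.MASSC
import Pool.Agent.K2C.ASIDE
import Pool.Agent.K2C.BSide
import Pool.Agent.K2C.INV
import Pool.Agent.K2C.QUO
import Pool.Agent.K2C.EST2
import Pool.Agent.K2C.MAX2
import Pool.Agent.K2C.Ker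
import Pool.Agent.K2C.Rows2
import Pool.Agent.K2C.Fini
import Pool.Agent.K2B.GEOA
import Pool.Agent.K2B.REALC
import Pool.Agent.K2B.GEOB
import Pool.Agent.K2B.GEOC
import Pool.Agent.K2B.NEAR
import Pool.Agent.K2B.TRANSC
import Pool.Agent.K2B.Reg
import Pool.Agent.K2B.WIND
import Pool.Agent.K2B.LIN
import Pool.Agent.K2B.PertB
import Pool.Agent.K2B.ROWS

/-!
# `K₂` of the curves `λ ∏ (x - α_i) ∏ (y - β_j) = 1`

Let `k` be a number field and `α_0, …, α_p`, `β_0, …, β_q`, `λ ≠ 0` algebraic integers in `k`,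
the `α_i` distinct. The curve `C : λ A(x) B(y) = 1`, `A = ∏ (x - α_i)`, `B = ∏ (y - β_j)`, has
bidegree `(p + 1, q + 1)`. If for one embedding `σ` of `k` in `ℂ` with `|σ(λ)| ≥ 1` the points
`σ(α_i)` are separated and the points `σ(β_j)` are separated (mutual distances at least `3`; or
real and at least `2`, at least three points; or real and at least `1`, at least six points), then
`C` is smooth (so its genus is `p q`), the `p q` elements
`ξ_ij = {(x - α_i)/(x - α_0), (y - β_j)/(y - β_0)}` of `K₂(k(C)) ⊗ ℚ` have trivial tame symbol at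
every discrete valuation of `k(C)`, they are linearly independent, and there are `p q` loops on
the curve over `ℂ` obtained from `σ` with nonzero regulator determinant.
-/

set_option autoImplicit false

namespace Pool.Agent.Results.MP_0a9c3b_nt.ProductK2

open Pool.Agent.BEK Pool.Agent.K2B Pool.Agent.K2C

theorem result :
    ∀ (k : Type) [Field k] [NumberField k] (p q : ℕ) (c : Crv k p q),
      (∀ i, IsIntegral ℤ (c.α i)) → (∀ j, IsIntegral ℤ (c.β j)) → IsIntegral ℤ c.lam →
      ∀ σ : k →+* ℂ, Separated (fun i => σ (c.α i)) → Separated (fun j => σ (c.β j)) →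
      1 ≤ ‖σ c.lam‖ →
      c.Smooth σ ∧ (∀ ij, Unram (c.xi ij)) ∧ LinearIndependent ℚ c.xi ∧
      ∃ γ : Fin p × Fin q → Loop c.F, (∀ l, c.Over (γ l) σ) ∧
        ((∀ a, (σ a).im = 0) → ∀ l, Anti (γ l)) ∧
        (regM γ c.xi).det ≠ 0 ∧ Spans γ := by
  have hD : Stmt_Dilog := dilog_proof (prim_proof li2_proof)
  have hReg := reg_proof
  have hGen := gen2_proof
  have hO := openw_proof
  have hMA := massA_proof
  have hMC := massC_proof
  intro k _ _ p q c hα hβ hl σ hsα hsβ hL
  exact main integ2_proof hGen (floop2_proof eval2_proof hGen) transc_proof (inv_proof hO)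
    (est2_proof hReg wind_proof (lin_proof hReg hD) pertB_proof) (quo_proof)
    (crit_proof hO) (aSide_proof hMA hMC geoA_proof geoB_proof geoc_proof realc_proof)
    (bside_proof hMA hMC bSideA_proof bsideb_proof bSideC_proof) max2_proof ker_proof rows2_proof
    fini_proof c hα hβ hl σ hsα hsβ hL

end Pool.Agent.Results.MP_0a9c3b_nt.ProductK2
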