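import Pool.Agent.K2C.Defs

/-!
# Exact statements of the modules of squad K2C (MP_0a9c3b_nt, third hand-in)
Text: /team-store/MP_0a9c3b_K2C.md
-/

set_option autoImplicit false

open Polynomial

namespace Pool.Agent.K2C

open Pool.Agent.BEK Pool.Agent.K2B

noncomputable section

/-! ## Algebra -/

/-- INTEG2: the tame symbols are trivial. -/
def Stmt_Integ2 : Prop :=
  ∀ (k F : Type) [Field k] [Field F] (c : k →+* F) (p q : ℕ) (α : Fin (p + 1) → k)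
    (β : Fin (q + 1) → k) (lam : k) (x y : F),
    (∀ i, IsIntegral ℤ (α i)) → (∀ j, IsIntegral ℤ (β j)) → IsIntegral ℤ lam →
    c lam * (∏ i, (x - c (α i))) * (∏ j, (y - c (β j))) = 1 →
    ∀ (v : DV F) (i : Fin (p + 1)) (j : Fin (q + 1)) (u w : Fˣ),
      (u : F) = (x - c (α i)) / (x - c (α 0)) → (w : F) = (y - c (β j)) / (y - c (β 0)) →
      v.tame u w = 1

/-- EVAL2: points with transcendental coordinate are generic. -/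
def Stmt_Eval2 : Prop :=
  ∀ (k : Type) [Field k] (p q : ℕ) (c : Crv k p q) (σ : k →+* ℂ) (X Y : ℂ),
    (∀ f : k[X], f ≠ 0 → (f.map σ).eval X ≠ 0) →
    σ c.lam * (∏ i, (X - σ (c.α i))) * (∏ j, (Y - σ (c.β j))) = 1 →
    ∃ e : c.F →+* ℂ, (∀ a, e (c.cst a) = σ a) ∧ e c.x = X ∧ e c.y = Y

/-- GEN2: the function field is generated by the constants and `x`, `y`. -/
def Stmt_Gen2 : Prop :=
  ∀ (k : Type) [Field k] (p q : ℕ) (c : Crv k p q),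
    c.cst c.lam * (∏ i, (c.x - c.cst (c.α i))) * (∏ j, (c.y - c.cst (c.β j))) = 1 ∧
    (∀ a, c.x ≠ c.cst a) ∧
    ∀ S : Subfield c.F, (∀ a, c.cst a ∈ S) → c.x ∈ S → c.y ∈ S → S = ⊤

/-- FLOOP2 (uses EVAL2, GEN2): loops of generic points. -/
def Stmt_FLoop2 : Prop :=
  ∀ (k : Type) [Field k] (p q : ℕ) (c : Crv k p q) (σ : k →+* ℂ) (X Y : ℝ → ℂ),
    ContDiff ℝ 1 X → ContDiff ℝ 1 Y →
    (∀ θ, X (θ + 2 * Real.pi) = X θ) → (∀ θ, Y (θ + 2 * Real.pi) = Y θ) →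
    (∀ θ, σ c.lam * (∏ i, (X θ - σ (c.α i))) * (∏ j, (Y θ - σ (c.β j))) = 1) →
    (∀ θ (f : k[X]), f ≠ 0 → (f.map σ).eval (X θ) ≠ 0) →
    ∃ γ : Loop c.F, c.Over γ σ ∧ (∀ θ, γ.ev θ c.x = X θ) ∧ (∀ θ, γ.ev θ c.y = Y θ) ∧
      ((∀ a, (σ a).im = 0) → (∀ θ, X (-θ) = (starRingEnd ℂ) (X θ)) →
        (∀ θ, Y (-θ) = (starRingEnd ℂ) (Y θ)) → Anti γ)

/-! ## Values and critical values -/

/-- OPENW: like `Open.value` in `K2B/OPEN.lean`, with `W` in place of `2`. -/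
def Stmt_OpenW : Prop :=
  ∀ (n : ℕ) (a : Fin n → ℂ) (r W : ℝ) (l : Fin n), 0 < r → 0 ≤ W →
    (∀ x, ‖x - a l‖ = r → W < ‖∏ i, (x - a i)‖) → ∀ c : ℂ, ‖c‖ ≤ W →
    ∃ z, ‖z - a l‖ < r ∧ ∏ i, (z - a i) = c

/-- CRIT (uses OPENW): critical values are large. -/
def Stmt_Crit : Prop :=
  ∀ (n : ℕ), 0 < n → ∀ (a : Fin n → ℂ) (r W : ℝ), 0 < r → 0 ≤ W →
    (∀ i j, i ≠ j → 2 * r ≤ ‖a i - a j‖) →
    (∀ l x, ‖x - a l‖ = r → W < ‖∏ i, (x - a i)‖) → ∀ u : ℂ,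
    (derivative (prodX a)).eval u = 0 → W < ‖(prodX a).eval u‖

/-! ## Geometry of the `β_j` -/

/-- small discs around the `b_j` and the size of the polynomial `∏ (y - b_j)` in them -/
structure BSys {q : ℕ} (b : Fin (q + 1) → ℂ) (ρ : ℝ) : Prop where
  pos : 0 < ρ
  sep : ∀ i j, i ≠ j → 2 * ρ ≤ ‖b i - b j‖
  big : ∀ m y, ‖y - b m‖ = ρ → 5 / 11 < ‖∏ j, (y - b j)‖
  der : ∀ m, ∃ κ : ℝ, 0 < κ ∧ (∀ y, ‖y - b m‖ < ρ → κ * ‖y - b m‖ ≤ ‖∏ j, (y - b j)‖) ∧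
    (∀ j, j ≠ m → 5 / (11 * κ) ≤ ‖b m - b j‖ / 12) ∧
    ∑ j ∈ Finset.univ.erase m, 1 / ‖b m - b j‖ ≤ κ / 2

/-- BSIDEA: mutual distances at least `3`. -/
def Stmt_BSideA : Prop :=
  ∀ (q : ℕ) (b : Fin (q + 1) → ℂ), 1 ≤ q → (∀ i j, i ≠ j → 3 ≤ ‖b i - b j‖) → BSys b (1 / 5)

/-- BSIDEB: mutual distances at least `2`. -/
def Stmt_BSideB : Prop :=
  ∀ (q : ℕ) (b : Fin (q + 1) → ℂ), 2 ≤ q → (∀ i j, i ≠ j → 2 ≤ ‖b i - b j‖) → BSys b (1 / 5)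

/-- BSIDEC: real points with mutual distances at least `1`. -/
def Stmt_BSideC : Prop :=
  ∀ (q : ℕ) (b : Fin (q + 1) → ℂ), 5 ≤ q → (∀ i, (b i).im = 0) →
    (∀ i j, i ≠ j → 1 ≤ ‖b i - b j‖) → BSys b (1 / 20)

/-! ## The mass inequality -/

/-- `c V ≤ ∑ log|a_l - a_i| (V - v_i)` for all `v` with sum zero and maximum `V = v_l` of the
absolute values -/
def Mass {n : ℕ} (a : Fin n → ℂ) (l : Fin n) (c : ℝ) : Prop :=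
  ∀ (v : Fin n → ℝ) (V : ℝ), 0 < V → (∀ i, |v i| ≤ V) → v l = V → ∑ i, v i = 0 →
    c * V ≤ ∑ i, Real.log ‖a l - a i‖ * (V - v i)

/-- MASSA -/
def Stmt_MassA : Prop :=
  ∀ (n : ℕ) (a : Fin n → ℂ) (D κ : ℝ), 0 < D → κ ≤ Real.log D →
    (∀ i j, i ≠ j → D ≤ ‖a i - a j‖) → ∀ l, Mass a l (κ * n)

/-- MASSC -/
def Stmt_MassC : Prop :=
  ∀ (n : ℕ) (a : Fin n → ℂ), (∀ i, (a i).im = 0) → (∀ i j, i ≠ j → 1 ≤ ‖a i - a j‖) →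
    ∀ l, Mass a l (69 / 100 * ((n : ℝ) - 4))

/-- ASIDE (uses MASSA, MASSC and GeoA, GeoB, GeoC, RealC of K2B): everything about the `α_i`. -/
def Stmt_ASide : Prop :=
  ∀ (p : ℕ) (a : Fin (p + 1) → ℂ), Separated a → ∃ (r₀ r₁ M c : ℝ), r₀ < r₁ ∧ 11 / 5 ≤ M ∧
    (∀ r, r₀ < r → r < r₁ → Sys a r M) ∧ (∀ l, Mass a l c) ∧
    21 / 20 * (p + 1) / M < c + 138 / 100

/-- BSIDE (uses MASSA, MASSC, BSIDEA, BSIDEB, BSIDEC): everything about the `β_j`. -/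
def Stmt_BSide : Prop :=
  ∀ (q : ℕ) (b : Fin (q + 1) → ℂ), Separated b → ∃ ρ : ℝ, BSys b ρ ∧
    ∀ m, Mass b m (138 / 100)

/-! ## Loops and regulators -/

/-- INV (uses OPENW): the solution `Y` of `∏ (Y - b_j) = w` near `b_m`. -/
def Stmt_Inv : Prop :=
  ∀ (q : ℕ) (b : Fin (q + 1) → ℂ) (ρ : ℝ), BSys b ρ → ∀ (m : Fin (q + 1)) (w : ℝ → ℂ),
    ContDiff ℝ 1 w → (∀ θ, w (θ + 2 * Real.pi) = w θ) → (∀ θ, ‖w θ‖ ≤ 5 / 11) →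
    ∃ Y : ℝ → ℂ, ContDiff ℝ 1 Y ∧ (∀ θ, Y (θ + 2 * Real.pi) = Y θ) ∧
      (∀ θ, ‖Y θ - b m‖ < ρ) ∧ (∀ θ, ∏ j, (Y θ - b j) = w θ) ∧
      ((∀ j, (b j).im = 0) → (∀ θ, w (-θ) = (starRingEnd ℂ) (w θ)) →
        ∀ θ, Y (-θ) = (starRingEnd ℂ) (Y θ))

/-- QUO (uses REG of K2B): regulators of quotients. -/
def Stmt_Quo : Prop :=
  ∀ f f' g g' : ℝ → ℂ, Nz f → Nz f' → Nz g → Nz g' →
    regz (fun θ => f θ / f' θ) (fun θ => g θ / g' θ) =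
      regz f g - regz f g' - regz f' g + regz f' g'

/-- EST2 (uses REG, WIND, LIN, PERTB of K2B): the regulators of `x - a_i` and `y - b_j` along
the loop at `(a_l, b_m)`. -/
def Stmt_Est2 : Prop :=
  ∀ (p q : ℕ) (a : Fin (p + 1) → ℂ) (b : Fin (q + 1) → ℂ) (L : ℂ) (r ρ τ : ℝ)
    (l : Fin (p + 1)) (m : Fin (q + 1)) (Y : ℝ → ℂ), 0 < r →
    (∀ i j, i ≠ j → 2 * r ≤ ‖a i - a j‖) → (∀ i j, i ≠ j → 2 * ρ ≤ ‖b i - b j‖) →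
    ContDiff ℝ 1 Y → (∀ θ, Y (θ + 2 * Real.pi) = Y θ) → (∀ θ, ‖Y θ - b m‖ < ρ) →
    (∀ θ, L * (∏ i, (circ (a l) r θ - a i)) * (∏ j, (Y θ - b j)) = 1) →
    (∀ θ, ‖Y θ - b m‖ ≤ τ) → (∀ j, j ≠ m → τ ≤ ‖b m - b j‖ / 12) →
    ∀ (v : Fin (p + 1) → Fin (q + 1) → ℝ) (V : ℝ), (∀ i j, |v i j| ≤ V) →
      |(∑ i, ∑ j, v i j * regz (fun θ => circ (a l) r θ - a i) (fun θ => Y θ - b j)) -
        (Real.log ‖L‖ * v l m + ∑ i, Real.log ‖a l - a i‖ * (v l m - v i m) +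
          ∑ j, Real.log ‖b m - b j‖ * (v l m - v l j))| ≤
      2 * V * (p + 1) * (21 / 20) * (τ * ∑ j ∈ Finset.univ.erase m, 1 / ‖b m - b j‖)

/-- MAX2: a maximum principle. -/
def Stmt_Max2 : Prop :=
  ∀ (p q : ℕ) (a : Fin (p + 1) → ℂ) (b : Fin (q + 1) → ℂ) (Lg E ca cb : ℝ)
    (R : Fin (p + 1) → Fin (q + 1) → Fin (p + 1) → Fin (q + 1) → ℝ), 0 ≤ Lg →
    (∀ l, Mass a l ca) → (∀ m, Mass b m cb) → E < ca + cb →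
    (∀ l m (v : Fin (p + 1) → Fin (q + 1) → ℝ) (V : ℝ), (∀ i j, |v i j| ≤ V) →
      |(∑ i, ∑ j, v i j * R l m i j) -
        (Lg * v l m + ∑ i, Real.log ‖a l - a i‖ * (v l m - v i m) +
          ∑ j, Real.log ‖b m - b j‖ * (v l m - v l j))| ≤ E * V) →
    ∀ v : Fin (p + 1) → Fin (q + 1) → ℝ, (∀ j, ∑ i, v i j = 0) → (∀ i, ∑ j, v i j = 0) →
      (∀ l m, ∑ i, ∑ j, v i j * R l m i j = 0) → ∀ i j, v i j = 0

/-- KER (linear algebra): passage to the elements `ξ_ij`. -/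
def Stmt_Ker : Prop :=
  ∀ (p q : ℕ) (w : Fin p × Fin q → ℝ),
    ∃ v : Fin (p + 1) → Fin (q + 1) → ℝ, (∀ j, ∑ i, v i j = 0) ∧ (∀ i, ∑ j, v i j = 0) ∧
      (∀ ij : Fin p × Fin q, v ij.1.succ ij.2.succ = w ij) ∧
      ∀ R : Fin (p + 1) → Fin (q + 1) → ℝ,
        ∑ ij : Fin p × Fin q, (R ij.1.succ ij.2.succ - R ij.1.succ 0 - R 0 ij.2.succ + R 0 0) *
          w ij = ∑ i, ∑ j, v i j * R i j

/-- ROWS2 (uses ROWS of K2B): rows of a matrix with independent columns. -/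
def Stmt_Rows2 : Prop :=
  ∀ (ι κ : Type) [Fintype ι] [DecidableEq ι] [Fintype κ] [DecidableEq κ] (N : ι → κ → ℝ),
    (∀ v : κ → ℝ, (∀ l, ∑ j, N l j * v j = 0) → v = 0) →
    ∃ s : κ → ι, (Matrix.of fun l j : κ => N (s l) j).det ≠ 0

/-- FINI: independence and spanning. -/
def Stmt_Fini : Prop :=
  ∀ (F ι : Type) [Field F] [Fintype ι] [DecidableEq ι] (γ : ι → Loop F) (ξ : ι → KQ F),
    (regM γ ξ).det ≠ 0 → LinearIndependent ℚ ξ ∧ ((∀ j, Unram (ξ j)) → Spans γ)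

end

end Pool.Agent.K2C
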